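import Pool.Agent.MP_df844f_gt.RA.c.RF
import Pool.Agent.MP_df844f_gt.RA.s3.Cap
import Pool.Agent.MP_df844f_gt.RA.c.Main

-- ======== part 0: formerly Pool.Agent.MP_df844f_gt.RA.w.Small
section MrgPart0

set_option linter.unusedSectionVars false

noncomputable section

namespace Pool.Agent.MP_df844f_gt.RA

variable [Dat]

theorem ball : BallS := by
  intro c R
  induction R with
  | zero => exact ⟨{c}, by simp, fun x => by
      rw [Finset.mem_singleton, Nat.le_zero, d_eq_zero, eq_comm]⟩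
  | succ R ih =>
    obtain ⟨F, h1, h2⟩ := ih
    refine ⟨F ∪ (F ×ˢ (Finset.univ : Finset S)).image fun p => g p.2 * p.1, ?_, fun x => ?_⟩
    · refine (Finset.card_union_le _ _).trans ?_
      have : ((F ×ˢ (Finset.univ : Finset S)).image fun p => g p.2 * p.1).card ≤ F.card * nS :=
        Finset.card_image_le.trans (by rw [Finset.card_product, card_univ_S])
      have h3 := Nat.mul_le_mul_right (nS + 1) h1
      rw [Nat.mul_succ] at h3
      rw [pow_succ]; omega
    · simp only [Finset.mem_union, Finset.mem_image, Finset.mem_product, Finset.mem_univ, and_true,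
        h2]
      constructor
      · rintro (h | ⟨⟨y, s⟩, h, rfl⟩)
        · omega
        · have := d_triangle c y (g s * y)
          rw [d_g_mul] at this
          simp only at h ⊢; omega
      · intro h
        by_cases e : x = c
        · left; rw [e, d_self]; omega
        · obtain ⟨s, hs⟩ := exists_desc e
          have := hs.d_eq
          exact Or.inr ⟨⟨g s * x, s⟩, by simp only; omega, by simp⟩

theorem sp1 : SP1S := by
  intro a u b a' b' m hu ha hb hm C hC hn
  by_cases h : C ⊆ Sep a a'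
  · exact ha C h hn
  refine hb C (fun q hq => ?_) hn
  obtain ⟨r, hr, hra⟩ := Finset.not_subset.1 h
  by_contra hqb
  have r1 := hC hr; have q1 := hC hq
  have r2 := hm r; have q2 := hm q
  have r3 := btw_iff'.1 hu r; have q3 := btw_iff'.1 hu q
  refine hn r hr q hq (cross_of_four (a := u) (b := b) (c := a) (e := a') ?_ ?_ ?_ ?_ ?_ ?_) <;>
    simp only [mem_Sep] at * <;> grind

theorem dehn (h : K44S) : DehnS := by
  intro o x y z c hy hx hz
  have key : ∀ x : W, d o x ≤ d o y + c → (Sep o y \ Sep o x).card ≤ 3 → d x y ≤ 6 + c := by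
    intro x hx h3
    have e : Sep x y = (Sep o x \ Sep o y) ∪ (Sep o y \ Sep o x) := by
      ext r; simp only [Finset.mem_union, Finset.mem_sdiff, mem_Sep]; tauto
    have h1 := Finset.card_sdiff_add_card_inter (Sep o x) (Sep o y)
    have h2 := Finset.card_sdiff_add_card_inter (Sep o y) (Sep o x)
    rw [Finset.inter_comm] at h2
    have h4 := Finset.card_union_le (Sep o x \ Sep o y) (Sep o y \ Sep o x)
    rw [← e] at h4
    rw [card_Sep] at h1 h2 h4
    omega
  by_cases a : (Sep o y \ Sep o x).card ≤ 3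
  · exact Or.inl (key x hx a)
  by_cases b : (Sep o y \ Sep o z).card ≤ 3
  · exact Or.inr (by rw [d_comm]; exact key z hz b)
  refine absurd (fun r hr q hq => ?_) (h (Sep o y \ Sep o x) (Sep o y \ Sep o z) (by omega) (by omega))
  have r3 := btw_iff'.1 hy r; have q3 := btw_iff'.1 hy q
  refine cross_of_four (a := o) (b := x) (c := z) (e := y) ?_ ?_ ?_ ?_ ?_ ?_ <;>
    simp only [Finset.mem_sdiff, mem_Sep] at * <;> grind

end Pool.Agent.MP_df844f_gt.RA

end
end MrgPart0

-- ======== part 1: formerly Pool.Agent.MP_df844f_gt.RA.w.H1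
section MrgPart1

/-! Row H1: the first cohomology of a convex set of chambers vanishes. -/

set_option linter.unusedSectionVars false

noncomputable section

namespace Pool.Agent.MP_df844f_gt.RA

variable [Dat]

namespace H1

open Classical in
/-- A chosen descent towards `b`. -/
noncomputable def tt (b x : W) : S := if h : x ≠ b then Classical.choose (exists_desc h) else 0

theorem tt_desc {b x : W} (h : x ≠ b) : Desc b x (tt b x) := by
  unfold tt
  rw [dif_pos h]
  exact Classical.choose_spec (exists_desc h)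

/-- Sum of `c` along `n` chosen descents. -/
noncomputable def ph (c : S → W → F2) (b : W) : ℕ → W → F2
  | 0, _ => 0
  | n + 1, x => c (tt b x) x + ph c b n (g (tt b x) * x)

theorem ph_step (c : S → W → F2) {b x : W} (h : x ≠ b) :
    ph c b (d b x) x = c (tt b x) x + ph c b (d b (g (tt b x) * x)) (g (tt b x) * x) := by
  rw [← (tt_desc h).d_eq]
  rfl

theorem desc_sq {b x : W} {s t : S} (hs : Desc b x s) (ht : Desc b x t) (h : adj s t) :
    Desc b (g t * x) s := by
  rw [desc_iff, wall_adj h, Sep_step_of_mem (desc_iff.1 ht), Finset.mem_erase]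
  exact ⟨fun k => adj_ne h (wall_inj k), desc_iff.1 hs⟩

theorem f2a : ∀ a p q : F2, p = a + q → a = p + q := by decide

theorem f2b : ∀ a a' e e' p q r z : F2, a + a' + e + e' = 0 → p = e + r → a' = r + z →
    e' = q + z → a = p + q := by decide

end H1

open H1 in
theorem h1 : H1S := by
  intro K hK c hsym hsq
  rcases K.eq_empty_or_nonempty with rfl | ⟨b, hb⟩
  · exact ⟨fun _ => 0, fun s x hx => hx.elim⟩
  have down : ∀ x ∈ K, ∀ s, Desc b x s → g s * x ∈ K := fun x hx s hs => hK b hb x hx _ hs.btw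
  have key : ∀ n, ∀ x ∈ K, d b x = n → ∀ s, Desc b x s →
      c s x = ph c b (d b x) x + ph c b (d b (g s * x)) (g s * x) := by
    intro n
    induction n using Nat.strong_induction_on with
    | _ n ih =>
      intro x hx hn s hs
      have hne : x ≠ b := by
        rintro rfl
        have := hs.d_eq
        rw [d_self] at this
        omega
      have ht := tt_desc hne
      have e := ph_step c hne
      by_cases k : s = H1.tt b x
      · subst k
        exact f2a _ _ _ e
      have ha := desc_adj hs ht k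
      have d1 := desc_sq hs ht ha
      have d2 := desc_sq ht hs (adj_symm ha)
      have i1 := ih _ (by have := ht.d_eq; omega) _ (down x hx _ ht) rfl s d1
      have i2 := ih _ (by have := hs.d_eq; omega) _ (down x hx _ hs) rfl _ d2
      have ec : g (H1.tt b x) * (g s * x) = g s * (g (H1.tt b x) * x) := by
        rw [← mul_assoc, ← mul_assoc, g_comm ha]
      rw [ec] at i2
      exact f2b _ _ _ _ _ _ _ _
        (hsq s _ x ha hx (down x hx _ hs) (down x hx _ ht) (down _ (down x hx _ ht) _ d1)) e i1 i2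
  refine ⟨fun x => ph c b (d b x) x, fun s x hx hx' => ?_⟩
  by_cases k : Desc b x s
  · exact key _ x hx rfl s k
  · have e : g s * (g s * x) = x := by rw [← mul_assoc, g_mul_self, one_mul]
    have k' : Desc b (g s * x) s := by
      unfold Desc
      rw [e, d_eq_of_not_desc k]
      omega
    have := key _ _ hx' rfl s k'
    rw [e, hsym s x hx hx'] at this
    rw [this, add_comm]

end Pool.Agent.MP_df844f_gt.RA

end
end MrgPart1

-- ======== part 2: formerly Pool.Agent.MP_df844f_gt.RA.s3.Edge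
section MrgPart2

/-! Free sides at a rank 2 cell, and the boundary of a set of free sides. -/

set_option linter.unusedSectionVars false

noncomputable section

namespace Pool.Agent.MP_df844f_gt.RA

variable [Dat]

open PS

namespace EdgeA

theorem pair_cases {s t u v : S} (h : adj u v) (e : ({u, v} : Finset S) = {s, t}) :
    (u = s ∧ v = t) ∨ (u = t ∧ v = s) := by
  have h1 : u ∈ ({s, t} : Finset S) := e ▸ Finset.mem_insert_self _ _
  have h2 : v ∈ ({s, t} : Finset S) :=
    e ▸ Finset.mem_insert_of_mem (Finset.mem_singleton_self _)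
  have h3 := adj_ne h
  simp only [Finset.mem_insert, Finset.mem_singleton] at h1 h2
  rcases h1 with rfl | rfl <;> rcases h2 with rfl | rfl <;> simp_all

variable {B : Type} [MulAction W B] {Y : PS B}

theorem orb (hY : Y.State) {x y : Y.Om} {s t u v : S} (h : adj s t) (hx : Y.Free x s)
    (h' : adj u v) (k : Y.cell y {u, v} = Y.cell x {s, t}) :
    ((u = s ∧ v = t) ∨ (u = t ∧ v = s)) ∧ (y = x ∨ y = Y.sg t x ∨ y = Y.sg s (Y.sg t x)) := by
  have e := (cell_eq_iff.1 k).1
  refine ⟨pair_cases h' e, ?_⟩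
  rw [e] at k
  have := hY.orb2 h k.symm
  rw [sg_of_free hx] at this
  tauto

open Classical in
theorem coef (D : Finset (Y.Om × S)) (c : Y.Cell) : Y.bd (Y.ch1 D) c =
    (((D ×ˢ Finset.univ).filter fun z : (Y.Om × S) × S =>
      adj z.1.2 z.2 ∧ Y.cell z.1.1 {z.1.2, z.2} = c).card : F2) := by
  rw [bd_ch1, Finsupp.finsetSum_apply, Finset.card_filter, Nat.cast_sum, Finset.sum_product]
  refine Finset.sum_congr rfl fun p _ => ?_
  rw [Finsupp.finsetSum_apply, Finset.sum_filter]
  refine Finset.sum_congr rfl fun t _ => ?_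
  rw [Finsupp.single_apply]
  by_cases a : adj p.2 t <;> by_cases b : Y.cell p.1 {p.2, t} = c <;> simp [a, b]

end EdgeA

open EdgeA

theorem edgeS : EdgeS := by
  intro B _ hB Y hY x s t h hx
  have hne := adj_ne h
  by_cases a : Y.Free x t
  · refine ⟨x, t, s, a, adj_symm h, fun e => hne (congrArg Prod.snd e).symm,
      by rw [Finset.pair_comm], fun y' u' v' _ h' k => ?_⟩
    obtain ⟨k1, k2⟩ := orb hY h hx h' k
    rw [sg_of_free a, sg_of_free hx] at k2
    tauto
  have e1 := e_sg a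
  have c1 : Y.cell (Y.sg t x) {s, t} = Y.cell x {s, t} := cell_sg x (by simp)
  have n1 : ¬ Y.Free (Y.sg t x) t := fun q => q ⟨x, Y.e_symm e1⟩
  by_cases b : Y.Free (Y.sg t x) s
  · refine ⟨Y.sg t x, s, t, b, h, fun e => e_ne hB e1 (congrArg Prod.fst e).symm, c1,
      fun y' u' v' f h' k => ?_⟩
    obtain ⟨k1, k2⟩ := orb hY h hx h' k
    rw [sg_of_free b] at k2
    rcases k1 with k1 | ⟨rfl, rfl⟩
    · tauto
    · rcases k2 with rfl | rfl | rfl
      · exact absurd f a
      · exact absurd f n1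
      · exact absurd f n1
  have e2 := e_sg b
  refine ⟨Y.sg s (Y.sg t x), t, s, fun ⟨q, e3⟩ => hx ⟨q, Y.e_symm (hY.close (adj_symm h) e1 e2 e3)⟩,
    adj_symm h, fun e => hne (congrArg Prod.snd e).symm,
    by rw [Finset.pair_comm, cell_sg _ (by simp), c1], fun y' u' v' f h' k => ?_⟩
  obtain ⟨k1, k2⟩ := orb hY h hx h' k
  rcases k1 with ⟨rfl, rfl⟩ | ⟨rfl, rfl⟩ <;> rcases k2 with rfl | rfl | rfl
  · exact Or.inl ⟨rfl, rfl, rfl⟩
  · exact absurd f b
  · exact absurd ⟨_, Y.e_symm e2⟩ f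
  · exact absurd f a
  · exact absurd f n1
  · exact Or.inr ⟨rfl, rfl, rfl⟩

theorem bdS (ed : EdgeS) : BdS := by
  classical
  intro B _ hB Y hY D hD c
  rw [Finsupp.mem_support_iff, coef]
  generalize hT : ((D ×ˢ Finset.univ).filter fun z : (Y.Om × S) × S =>
      adj z.1.2 z.2 ∧ Y.cell z.1.1 {z.1.2, z.2} = c) = T
  have mT : ∀ p t, (p, t) ∈ T ↔ p ∈ D ∧ adj p.2 t ∧ Y.cell p.1 {p.2, t} = c := fun p t => by
    rw [← hT]; simp
  constructor
  · intro h
    obtain ⟨⟨p, t⟩, hz⟩ : T.Nonempty := by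
      rw [Finset.nonempty_iff_ne_empty]
      rintro rfl
      simp at h
    obtain ⟨hp, a, e⟩ := (mT p t).1 hz
    obtain ⟨y, u, v, -, a', ne, e', hu⟩ := ed B hB Y hY p.1 p.2 t a (hD p hp)
    refine ⟨p, hp, t, a, e.symm, fun q hq t' b f => ?_⟩
    rcases hu q.1 q.2 t' (hD q hq) b (f.trans e.symm) with ⟨k1, k2, -⟩ | ⟨k1, k2, k3⟩
    · exact Prod.ext k1 k2
    · exfalso
      have hT2 : T = {(p, t), (q, t')} := by
        ext ⟨q', t''⟩
        rw [Finset.mem_insert, Finset.mem_singleton]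
        constructor
        · intro hm
          obtain ⟨hq', b', f'⟩ := (mT _ _).1 hm
          rcases hu q'.1 q'.2 t'' (hD q' hq') b' (f'.trans e.symm) with ⟨j1, j2, j3⟩ | ⟨j1, j2, j3⟩
          · exact Or.inl (Prod.ext (Prod.ext j1 j2) j3)
          · exact Or.inr (Prod.ext (Prod.ext (j1.trans k1.symm) (j2.trans k2.symm))
              (j3.trans k3.symm))
        · rintro (j | j) <;> rw [j]
          · exact hz
          · exact (mT _ _).2 ⟨hq, b, f⟩
      rw [hT2, Finset.card_pair] at h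
      · exact h (by decide)
      · intro j
        have j1 : p = q := congrArg Prod.fst j
        exact ne (by rw [← k1, ← k2, j1])
  · rintro ⟨p, hp, t, a, e, hu'⟩
    obtain ⟨y, u, v, -, a', ne, e', hu⟩ := ed B hB Y hY p.1 p.2 t a (hD p hp)
    have hT1 : T = {(p, t)} := by
      ext ⟨q, t'⟩
      rw [Finset.mem_singleton]
      constructor
      · intro hm
        obtain ⟨hq, b, f⟩ := (mT _ _).1 hm
        obtain rfl := hu' q hq t' b f
        rcases hu q.1 q.2 t' (hD q hq) b (f.trans e) with ⟨-, -, k3⟩ | ⟨k1, k2, -⟩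
        · rw [k3]
        · exact absurd (by rw [← k1, ← k2]) ne
      · intro j
        rw [j]
        exact (mT _ _).2 ⟨hp, a, e.symm⟩
    rw [hT1, Finset.card_singleton]
    decide

end Pool.Agent.MP_df844f_gt.RA

end
end MrgPart2

-- ======== part 3: formerly Pool.Agent.MP_df844f_gt.RA.s3.Step
section MrgPart3

/-! Row STEP: one step of the sweep. -/

set_option linter.unusedSectionVars false

noncomputable section

namespace Pool.Agent.MP_df844f_gt.RA

variable [Dat]

open PS

namespace StepA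

variable {B : Type} [MulAction W B] {Y : PS B}

theorem f2_one {a : F2} (h : a ≠ 0) : a = 1 := by revert a; decide

theorem up_up {w0 c : W} {a b : S} (ha : ¬ Desc w0 c a) (hb : ¬ Desc w0 c b) (h : adj a b) :
    d w0 (g b * (g a * c)) = d w0 c + 2 := by
  have h1 : ¬ Desc w0 (g a * c) b := by
    rw [desc_iff, wall_adj (adj_symm h), mem_Sep_step]
    rw [desc_iff] at hb
    have : wall b c ≠ wall a c := fun k => adj_ne h (wall_inj k).symm
    tauto
  rw [d_eq_of_not_desc h1, d_eq_of_not_desc ha]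

theorem d_step (w0 w : W) (v : S) : d w0 w ≤ d w0 (g v * w) + 1 ∧ d w0 (g v * w) ≤ d w0 w + 1 := by
  by_cases h : Desc w0 w v
  · have := h.d_eq; omega
  · have := d_eq_of_not_desc h; omega

theorem sg_cases (s : S) (x : Y.Om) : Y.sg s x = x ∨ Y.e s x (Y.sg s x) := by
  by_cases h : Y.Free x s
  · exact Or.inl (sg_of_free h)
  · exact Or.inr (e_sg h)

/-- Rank two orbits in terms of edges. -/
theorem orb (hY : Y.State) {a b : S} (h : adj a b) {x y : Y.Om}
    (k : Y.cell x {a, b} = Y.cell y {a, b}) :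
    y = x ∨ Y.e a x y ∨ Y.e b x y ∨ (∃ q, Y.e a x q ∧ Y.e b q y) ∨ ∃ q, Y.e b x q ∧ Y.e a q y := by
  rcases hY.orb2 h k with rfl | rfl | rfl | rfl | rfl
  · exact Or.inl rfl
  · rcases sg_cases a x with q | q
    · exact Or.inl q
    · exact Or.inr (Or.inl q)
  · rcases sg_cases b x with q | q
    · exact Or.inl q
    · exact Or.inr (Or.inr (Or.inl q))
  · rcases sg_cases a x with q | q
    · rw [q]
      rcases sg_cases b x with q' | q'
      · exact Or.inl q'
      · exact Or.inr (Or.inr (Or.inl q'))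
    · rcases sg_cases b (Y.sg a x) with q' | q'
      · rw [q']; exact Or.inr (Or.inl q)
      · exact Or.inr (Or.inr (Or.inr (Or.inl ⟨_, q, q'⟩)))
  · rcases sg_cases b x with q | q
    · rw [q]
      rcases sg_cases a x with q' | q'
      · exact Or.inl q'
      · exact Or.inr (Or.inl q')
    · rcases sg_cases a (Y.sg b x) with q' | q'
      · rw [q']; exact Or.inr (Or.inr (Or.inl q))
      · exact Or.inr (Or.inr (Or.inr (Or.inr ⟨_, q, q'⟩)))

theorem bd_apply (u : Y.Chain) (e : Y.Cell) :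
    Y.bd u e = ∑ c ∈ u.support, Y.bd (Finsupp.single c (u c)) e := by
  conv_lhs => rw [← Finsupp.sum_single u]
  rw [Finsupp.sum, map_sum, Finsupp.finsetSum_apply]

/-- A face of a cycle has a second face of the cycle along each of its edges. -/
theorem parity {u : Y.Chain} (hu : ∀ c ∈ u.support, ∃ x s, c = Y.cell x {s}) (h0 : Y.bd u = 0)
    {x : Y.Om} {a b : S} (hx : Y.cell x {a} ∈ u.support) (h : adj a b) :
    ∃ y v, (v = a ∨ v = b) ∧ Y.cell y {v} ∈ u.support ∧ Y.cell y {v} ≠ Y.cell x {a} ∧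
      Y.cell x {a, b} = Y.cell y {a, b} := by
  by_contra hc
  have h1 := bd_apply u (Y.cell x {a, b})
  rw [h0, Finset.sum_eq_single_of_mem _ hx, bd_single, Finsupp.finsetSum_apply,
    Finset.sum_eq_single_of_mem b (by simpa using h), Finset.pair_comm b a,
    Finsupp.single_eq_same] at h1
  · exact Finsupp.mem_support_iff.1 hx h1.symm
  · intro t ht htb
    refine Finsupp.single_eq_of_ne fun k => htb ?_
    have e := (cell_eq_iff.1 k).1
    have h2 : t ∈ ({a, b} : Finset S) := e ▸ Finset.mem_insert_self t {a}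
    have h3 : adj a t := by simpa using ht
    rcases Finset.mem_insert.1 h2 with q | q
    · exact absurd q.symm (adj_ne h3)
    · exact Finset.mem_singleton.1 q
  · intro c hcs hne
    obtain ⟨y, v, rfl⟩ := hu c hcs
    rw [bd_single, Finsupp.finsetSum_apply]
    refine Finset.sum_eq_zero fun t _ => Finsupp.single_eq_of_ne fun k => hc ⟨y, v, ?_, hcs, hne, ?_⟩
    · have e := (cell_eq_iff.1 k).1
      have h2 : v ∈ ({a, b} : Finset S) :=
        e ▸ Finset.mem_insert_of_mem (Finset.mem_singleton_self v)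
      simpa using h2
    · have e := (cell_eq_iff.1 k).1
      rw [← e] at k
      exact k

/-- Removing a chamber all of whose sides outside `J` lie in the support. -/
theorem count (hS : 12 ≤ nS) {u : Y.Chain} (z : Y.Om) (J : Finset S) (hJ : J.card ≤ 3)
    (h : ∀ b ∉ J, Y.cell z {b} ∈ u.support) :
    (u + Y.bd (Finsupp.single (Y.cell z ∅) 1)).support.card + 6 ≤ u.support.card := by
  have inj : Function.Injective fun s : S => Y.cell z {s} := fun s t k =>
    Finset.singleton_injective (cell_eq_iff.1 k).1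
  have hb : Y.bd (Finsupp.single (Y.cell z ∅) 1) = ∑ s : S, Finsupp.single (Y.cell z {s}) 1 := by
    rw [bd_single]; simp
  have hs : (u + Y.bd (Finsupp.single (Y.cell z ∅) 1)).support ⊆
      (u.support \ Jᶜ.image fun s => Y.cell z {s}) ∪ J.image fun s => Y.cell z {s} := by
    intro e he
    rw [Finsupp.mem_support_iff, Finsupp.add_apply, hb, Finsupp.finsetSum_apply] at he
    by_cases k : ∃ s, e = Y.cell z {s}
    · obtain ⟨s, rfl⟩ := k
      by_cases hsJ : s ∈ J
      · exact Finset.mem_union_right _ (Finset.mem_image_of_mem _ hsJ)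
      · exfalso
        apply he
        rw [Finset.sum_eq_single_of_mem s (Finset.mem_univ s), Finsupp.single_eq_same,
          f2_one (Finsupp.mem_support_iff.1 (h s hsJ))]
        · exact F2_add_self 1
        · intro t _ hts
          exact Finsupp.single_eq_of_ne fun q => hts (inj q).symm
    · rw [Finset.sum_eq_zero fun s _ => Finsupp.single_eq_of_ne fun q => k ⟨s, q⟩, add_zero] at he
      refine Finset.mem_union_left _ (Finset.mem_sdiff.2 ⟨Finsupp.mem_support_iff.2 he, fun q => ?_⟩)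
      obtain ⟨s, _, rfl⟩ := Finset.mem_image.1 q
      exact k ⟨s, rfl⟩
  have h1 := (Finset.card_le_card hs).trans (Finset.card_union_le _ _)
  have h2 : (Jᶜ.image fun s => Y.cell z {s}) ⊆ u.support := by
    intro e he
    obtain ⟨s, hs', rfl⟩ := Finset.mem_image.1 he
    exact h s (Finset.mem_compl.1 hs')
  have h3 := Finset.card_sdiff_add_card_eq_card h2
  rw [Finset.card_image_of_injective _ inj] at h1 h3
  rw [Finset.card_compl, card_S] at h3
  omega

theorem crossing {r : S → S → Prop} {s t : S} (h : Relation.ReflTransGen r s t) (T : Finset S)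
    (hs : s ∈ T) (ht : t ∉ T) : ∃ a b, a ∈ T ∧ b ∉ T ∧ r a b := by
  induction h with
  | refl => exact absurd hs ht
  | @tail a b _ k ih =>
    by_cases q : a ∈ T
    · exact ⟨a, b, q, ht, k⟩
    · exact ih q

/-- A consistent choice of chambers along a spanning tree of the letters outside `J`. -/
theorem grow (J : Finset S) (Up : S → Y.Om → Prop) (s1 : S) (x1 : Y.Om) (h1 : Up s1 x1)
    (hs1 : s1 ∉ J)
    (conn : ∀ t ∉ J, Relation.ReflTransGen (fun a b => a ∉ J ∧ b ∉ J ∧ adj a b) s1 t)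
    (link : ∀ a b ya, a ∉ J → b ∉ J → adj a b → Up a ya →
      ∃ yb q, Up b yb ∧ Y.e b ya q ∧ Y.e a yb q) :
    ∃ y : S → Y.Om, (∀ t ∉ J, Up t (y t)) ∧
      (∀ t ∉ J, ∀ u ∉ J, Relation.ReflTransGen
        (fun a c => a ∉ J ∧ c ∉ J ∧ adj a c ∧ ∃ q, Y.e c (y a) q ∧ Y.e a (y c) q) t u) ∧
      ∀ t ∉ J, ∀ u ∉ J, Y.Near (2 * nS) (y t) (y u) := by
  have key : ∀ k : ℕ, ∃ (T : Finset S) (y : S → Y.Om), s1 ∈ T ∧ (∀ t ∈ T, t ∉ J ∧ Up t (y t)) ∧
      (∀ t ∈ T, Relation.ReflTransGen
        (fun a c => a ∈ T ∧ c ∈ T ∧ adj a c ∧ ∃ q, Y.e c (y a) q ∧ Y.e a (y c) q) s1 t) ∧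
      (∀ t ∈ T, ∀ u ∈ T, Y.Near (2 * T.card) (y t) (y u)) ∧ (k ≤ T.card ∨ ∀ t ∉ J, t ∈ T) := by
    intro k
    induction k with
    | zero =>
      refine ⟨{s1}, fun _ => x1, Finset.mem_singleton_self _, fun t ht => ?_, fun t ht => ?_,
        fun _ _ _ _ => Near.refl _ _, Or.inl (Nat.zero_le _)⟩
      · rw [Finset.mem_singleton.1 ht]; exact ⟨hs1, h1⟩
      · rw [Finset.mem_singleton.1 ht]
    | succ k ih =>
      obtain ⟨T, y, a1, a2, a3, a4, a5⟩ := ih
      by_cases hd : ∀ t ∉ J, t ∈ T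
      · exact ⟨T, y, a1, a2, a3, a4, Or.inr hd⟩
      · have hk : k ≤ T.card := a5.resolve_right hd
        push Not at hd
        obtain ⟨t0, ht0, ht1⟩ := hd
        obtain ⟨a, b, ha, hb, haJ, hbJ, hab⟩ := crossing (conn t0 ht0) T a1 ht1
        obtain ⟨yb, q, b1, b2, b3⟩ := link a b (y a) haJ hbJ hab (a2 a ha).2
        have hy : ∀ t ∈ T, Function.update y b yb t = y t := fun t ht =>
          Function.update_of_ne (fun e : t = b => hb (e ▸ ht)) _ _
        have hyb : Function.update y b yb b = yb := Function.update_self _ _ _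
        have hn : Y.Near 2 (y a) yb := (Near.single b2).trans (Near.single (Y.e_symm b3))
        have old : ∀ t ∈ T, Relation.ReflTransGen
            (fun a' c => a' ∈ insert b T ∧ c ∈ insert b T ∧ adj a' c ∧
              ∃ q, Y.e c (Function.update y b yb a') q ∧ Y.e a' (Function.update y b yb c) q)
            s1 t := fun t ht =>
          Relation.ReflTransGen.mono (fun a' c ⟨e1, e2, e3, e4⟩ =>
            ⟨Finset.mem_insert_of_mem e1, Finset.mem_insert_of_mem e2, e3, by
              rw [hy a' e1, hy c e2]; exact e4⟩) _ _ (a3 t ht)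
        refine ⟨insert b T, Function.update y b yb, Finset.mem_insert_of_mem a1, fun t ht => ?_,
          fun t ht => ?_, fun t ht u hu => ?_, Or.inl ?_⟩
        · rcases Finset.mem_insert.1 ht with rfl | ht
          · rw [hyb]; exact ⟨hbJ, b1⟩
          · rw [hy t ht]; exact a2 t ht
        · rcases Finset.mem_insert.1 ht with rfl | ht
          · refine (old a ha).tail ⟨Finset.mem_insert_of_mem ha, Finset.mem_insert_self _ _, hab,
              q, ?_, ?_⟩
            · rw [hy a ha]; exact b2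
            · rw [hyb]; exact b3
          · exact old t ht
        · rw [Finset.card_insert_of_notMem hb]
          rcases Finset.mem_insert.1 ht with e | ht' <;>
            rcases Finset.mem_insert.1 hu with e' | hu'
          · rw [e, e']; exact Near.refl _ _
          · rw [e, hyb, hy u hu']
            exact (hn.symm.trans (a4 a ha u hu')).mono (by omega)
          · rw [e', hyb, hy t ht']
            exact ((a4 t ht' a ha).trans hn).mono (by omega)
          · rw [hy t ht', hy u hu']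
            exact (a4 t ht' u hu').mono (by omega)
        · rw [Finset.card_insert_of_notMem hb]; omega
  obtain ⟨T, y, a1, a2, a3, a4, a5⟩ := key (nS + 1)
  have hT : T.card ≤ nS := Finset.card_le_univ T
  have hall : ∀ t ∉ J, t ∈ T := a5.resolve_left (by omega)
  have hr : ∀ t ∉ J, Relation.ReflTransGen
      (fun a c => a ∉ J ∧ c ∉ J ∧ adj a c ∧ ∃ q, Y.e c (y a) q ∧ Y.e a (y c) q) s1 t :=
    fun t ht => Relation.ReflTransGen.mono (fun a c ⟨e1, e2, e3, e4⟩ =>
      ⟨(a2 a e1).1, (a2 c e2).1, e3, e4⟩) _ _ (a3 t (hall t ht))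
  have hsym : ∀ {t u}, Relation.ReflTransGen
      (fun a c => a ∉ J ∧ c ∉ J ∧ adj a c ∧ ∃ q, Y.e c (y a) q ∧ Y.e a (y c) q) t u →
      Relation.ReflTransGen
      (fun a c => a ∉ J ∧ c ∉ J ∧ adj a c ∧ ∃ q, Y.e c (y a) q ∧ Y.e a (y c) q) u t := by
    intro t u h
    induction h with
    | refl => exact Relation.ReflTransGen.refl
    | tail _ k ih =>
      obtain ⟨e1, e2, e3, q, e4, e5⟩ := k
      exact Relation.ReflTransGen.head ⟨e2, e1, adj_symm e3, q, e5, e4⟩ ih
  exact ⟨y, fun t ht => (a2 t (hall t ht)).2, fun t ht u hu => (hsym (hr t ht)).trans (hr u hu),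
    fun t ht u hu => (a4 t (hall t ht) u (hall u hu)).mono (by omega)⟩

end StepA

open StepA in
theorem step (hF : FactS) : StepS := by
  intro B _ o n hT Y x0 w0 u hY hw hu h0 hne
  classical
  have lift_e : ∀ {s x y} {w : W}, Y.e s x y → w • o = Y.f x → (g s * w) • o = Y.f y :=
    fun h k => by rw [mul_smul, k, Y.e_f h]
  -- lifts of chambers that carry a face of the support
  have hA : ∀ y v w, Y.cell y {v} ∈ u.support → w • o = Y.f y → d w0 w ≤ n + 9 →
      d w0 w ≤ n + 1 ∧ Y.Near (n + 1) x0 y := by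
    intro y v w h1 h2 h3
    obtain ⟨x, s, e, hx⟩ := hu _ h1
    obtain rfl : v = s := Finset.singleton_injective (cell_eq_iff.1 e).1
    have hn : Y.Near (n + 1) x0 y := by
      rcases hY.cell_one.1 e with q | q
      · rw [← q]; exact hx.mono (by omega)
      · exact hx.trans (Near.single (Y.e_symm q))
    obtain ⟨w', a1, a2⟩ := hn.lift hw
    have h4 := d_triangle w w0 w'
    rw [d_comm w w0] at h4
    rw [hT w w' (h2.trans a1.symm) (by omega)]
    exact ⟨a2, hn⟩
  -- a face with maximal lower corner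
  let H : Set ℕ := {h | ∃ y v w, Y.cell y {v} ∈ u.support ∧ w • o = Y.f y ∧ d w0 w ≤ n + 1 ∧
    h = min (d w0 w) (d w0 (g v * w))}
  have hH : H.Nonempty := by
    obtain ⟨e, he⟩ := Finsupp.support_nonempty_iff.2 hne
    obtain ⟨x, s, rfl, hx⟩ := hu e he
    obtain ⟨w, a1, a2⟩ := hx.lift hw
    exact ⟨_, x, s, w, he, a1, by omega, rfl⟩
  have hB : BddAbove H := ⟨n + 1, by
    rintro _ ⟨y, v, w, _, _, a3, rfl⟩
    exact (min_le_left _ _).trans a3⟩
  obtain ⟨x1, s1, w1, b1, b2, b3, b4⟩ := Nat.sSup_mem hH hB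
  obtain ⟨c, c1, c2, c3⟩ : ∃ c, ¬ Desc w0 c s1 ∧ d w0 c = sSup H ∧ (w1 = c ∨ w1 = g s1 * c) := by
    by_cases k : Desc w0 w1 s1
    · have := k.d_eq
      refine ⟨g s1 * w1, fun q => ?_, by omega, Or.inr (g_mul_g_mul _ _).symm⟩
      have h2 := q.d_eq
      rw [g_mul_g_mul] at h2
      omega
    · have := d_eq_of_not_desc k
      exact ⟨w1, k, by omega, Or.inl rfl⟩
  have hm : d w0 c ≤ n + 1 := by omega
  have hM : ∀ y v w, Y.cell y {v} ∈ u.support → w • o = Y.f y → d w0 w ≤ d w0 c + 2 →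
      d w0 w ≤ d w0 c ∨ d w0 (g v * w) ≤ d w0 c := by
    intro y v w h1 h2 h3
    have := le_csSup hB (⟨y, v, w, h1, h2, (hA y v w h1 h2 (by omega)).1, rfl⟩ :
      min (d w0 w) (d w0 (g v * w)) ∈ H)
    omega
  let J : Finset S := Finset.univ.filter fun t => Desc w0 c t
  have hJ : ∀ t, t ∉ J ↔ ¬ Desc w0 c t := fun t => by simp [J]
  have hclq : Clq J := fun s hs t ht hst =>
    desc_adj (Finset.mem_filter.1 hs).2 (Finset.mem_filter.1 ht).2 hst
  have hu' : ∀ c ∈ u.support, ∃ x s, c = Y.cell x {s} := fun e he =>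
    let ⟨x, s, k, _⟩ := hu e he; ⟨x, s, k⟩
  by_cases hc : ∃ z a, a ∉ J ∧ c • o = Y.f z ∧ Y.cell z {a} ∈ u.support
  · obtain ⟨z, a0, z1, z2, z3⟩ := hc
    refine Or.inl ⟨z, (hA z a0 c z3 z2 (by omega)).2, count hF.big z J (hF.clq J hclq) fun b hb => ?_⟩
    have hr := hF.conn J hclq a0 z1 b hb
    clear hb
    induction hr with
    | refl => exact z3
    | @tail a b _ k ih =>
      obtain ⟨ha, hb, hab⟩ := k
      have da := d_eq_of_not_desc ((hJ a).1 ha)
      have db := d_eq_of_not_desc ((hJ b).1 hb)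
      have dab := up_up ((hJ a).1 ha) ((hJ b).1 hb) hab
      have dba := up_up ((hJ b).1 hb) ((hJ a).1 ha) (adj_symm hab)
      obtain ⟨y, v, p1, p2, p3, p4⟩ := parity hu' h0 ih hab
      rcases orb hY hab p4 with q | q | q | ⟨q, q1, q2⟩ | ⟨q, q1, q2⟩
      · subst q
        rcases p1 with rfl | rfl
        · exact absurd rfl p3
        · exact p2
      · have := hM y v _ p2 (lift_e q z2) (by omega)
        rcases p1 with rfl | rfl
        · exact absurd (cell_e (Finset.mem_singleton_self _) q).symm p3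
        · omega
      · have := hM y v _ p2 (lift_e q z2) (by omega)
        rcases p1 with rfl | rfl
        · omega
        · rw [cell_e (Finset.mem_singleton_self _) q]; exact p2
      · have := hM y v _ p2 (lift_e q2 (lift_e q1 z2)) (by omega)
        have := (d_step w0 (g b * (g a * c)) v).1
        omega
      · have := hM y v _ p2 (lift_e q2 (lift_e q1 z2)) (by omega)
        have := (d_step w0 (g a * (g b * c)) v).1
        omega
  · right
    have hfree : ∀ t y, t ∉ J → (g t * c) • o = Y.f y → Y.cell y {t} ∈ u.support → Y.Free y t := by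
      rintro t y h1 h2 h3 ⟨z, hz⟩
      refine hc ⟨z, t, h1, ?_, ?_⟩
      · have := lift_e hz h2
        rwa [g_mul_g_mul] at this
      · rw [← cell_e (Finset.mem_singleton_self _) hz]; exact h3
    have hs1 : s1 ∉ J := (hJ s1).2 c1
    have hx1 : (g s1 * c) • o = Y.f x1 := by
      rcases c3 with q | q
      · exact absurd ⟨x1, s1, hs1, q ▸ b2, b1⟩ hc
      · exact q ▸ b2
    obtain ⟨y, y1, y2, y3⟩ := grow J
      (fun t y => (g t * c) • o = Y.f y ∧ Y.cell y {t} ∈ u.support) s1 x1 ⟨hx1, b1⟩ hs1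
      (hF.conn J hclq s1 hs1) (by
        rintro a b ya ha hb hab ⟨l1, l2⟩
        have da := d_eq_of_not_desc ((hJ a).1 ha)
        have db := d_eq_of_not_desc ((hJ b).1 hb)
        have dab := up_up ((hJ a).1 ha) ((hJ b).1 hb) hab
        have dba := up_up ((hJ b).1 hb) ((hJ a).1 ha) (adj_symm hab)
        have fa := hfree a ya ha l1 l2
        obtain ⟨y, v, p1, p2, p3, p4⟩ := parity hu' h0 l2 hab
        rcases orb hY hab p4 with q | q | q | ⟨q, q1, q2⟩ | ⟨q, q1, q2⟩
        · subst q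
          have := hM y v _ p2 l1 (by omega)
          rcases p1 with rfl | rfl
          · exact absurd rfl p3
          · omega
        · exact absurd ⟨_, q⟩ fa
        · have := hM y v _ p2 (lift_e q l1) (by omega)
          have := (d_step w0 (g b * (g a * c)) v).1
          omega
        · exact absurd ⟨_, q1⟩ fa
        · have l3 : (g b * c) • o = Y.f y := by
            have := lift_e q2 (lift_e q1 l1)
            rwa [← mul_assoc (g a), g_comm hab, mul_assoc, g_mul_g_mul] at this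
          have := hM y v _ p2 l3 (by omega)
          rcases p1 with rfl | rfl
          · omega
          · exact ⟨y, q, ⟨l3, p2⟩, q1, Y.e_symm q2⟩)
    exact ⟨J, y, c • o, hclq, fun t ht => by rw [← (y1 t ht).1, mul_smul],
      fun t ht => hfree t _ ht (y1 t ht).1 (y1 t ht).2, y2, y3⟩

end Pool.Agent.MP_df844f_gt.RA

end
end MrgPart3

-- ======== part 4: formerly Pool.Agent.MP_df844f_gt.RA.s5.EndM
section MrgPart4

/-! The dual cube complex of the closed manifold. -/

set_option linter.unusedSectionVars false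

noncomputable section

namespace Pool.Agent.MP_df844f_gt.RA

variable [Dat]

open PS

namespace EndMA

variable (B : Type) [MulAction W B] [Finite B]

theorem full (x : (fullPS B).Om) (J : Finset S) : (fullPS B).Full x J :=
  fun y _ s _ h => h ⟨(g s • (show B from y) : B), rfl⟩

theorem count (ps : PsizeS) (hB : Loc B) (k : ℕ) :
    2 ^ k * (fullPS B).nC k =
      (Finset.univ.filter fun J : Finset S => J.card = k ∧ Clq J).card * Nat.card B := by
  classical
  have : Fintype (fullPS B).Cell := Fintype.ofFinite _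
  let A : Finset S → Finset (fullPS B).Cell := fun J =>
    Finset.univ.filter fun c => ∃ x, (fullPS B).Full x J ∧ c = (fullPS B).cell x J
  have h1 : (fullPS B).FC k =
      ((Finset.univ.filter fun J : Finset S => J.card = k ∧ Clq J).biUnion A : Finset _) := by
    ext c
    simp only [FC, A, Set.mem_ofPred_eq, Finset.coe_biUnion, Finset.coe_filter, Finset.mem_univ,
      true_and, Set.mem_iUnion]
    constructor
    · rintro ⟨x, J, a, b, d, e⟩
      exact ⟨J, ⟨a, b⟩, x, d, e⟩
    · rintro ⟨J, ⟨a, b⟩, x, d, e⟩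
      exact ⟨x, J, a, b, d, e⟩
  rw [nC, h1, Set.ncard_coe_finset, Finset.card_biUnion, Finset.mul_sum, ← smul_eq_mul,
    ← Finset.sum_const]
  · refine Finset.sum_congr rfl fun J hJ => ?_
    obtain ⟨a, b⟩ := (Finset.mem_filter.1 hJ).2
    have h := ps B hB (fullPS B) (fullPS_state B) J b
    rw [Set.eq_univ_of_forall (s := {x | (fullPS B).Full x J}) fun x => full B x J,
      Set.ncard_univ, a] at h
    rw [← Set.ncard_coe_finset, Finset.coe_filter]
    simp only [Finset.mem_univ, true_and]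
    exact h.symm
  · intro J _ J' _ hne
    refine Finset.disjoint_left.2 fun c h1 h2 => hne ?_
    obtain ⟨x, -, e⟩ := (Finset.mem_filter.1 h1).2
    obtain ⟨y, -, e'⟩ := (Finset.mem_filter.1 h2).2
    exact (cell_eq_iff.1 (e.symm.trans e')).1

/-- The sum of the coefficients. -/
noncomputable def tot : (fullPS B).Chain →ₗ[F2] F2 := Finsupp.linearCombination F2 fun _ => 1

theorem tot_single (c : (fullPS B).Cell) : tot B (Finsupp.single c 1) = 1 := by
  simp [tot]

theorem tot_dl (hF : FactS) (u : (fullPS B).Chain) (hu : u ∈ (fullPS B).Ck 2) :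
    tot B ((fullPS B).dl 3 u) = 0 := by
  classical
  rw [Ck, Finsupp.supported_eq_span_single] at hu
  refine (Submodule.span_le (p := LinearMap.ker (tot B ∘ₗ (fullPS B).dl 3))).2 ?_ hu
  rintro _ ⟨c, ⟨x, J, h1, h2, -, rfl⟩, rfl⟩
  have h3 : (fullPS B).bd (Finsupp.single ((fullPS B).cell x J) 1) ∈ (fullPS B).Ck 3 := by
    rw [bd_single]
    refine Submodule.sum_mem _ fun t ht => Finsupp.single_mem_supported F2 _ ?_
    have ht' := (Finset.mem_filter.1 ht).2
    have nt : t ∉ J := fun m => adj_irrefl t (ht' t m)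
    refine ⟨x, insert t J, by rw [Finset.card_insert_of_notMem nt, h1], ?_, full B _ _, rfl⟩
    intro a ha b hb hab
    rcases Finset.mem_insert.1 ha with rfl | ha' <;> rcases Finset.mem_insert.1 hb with rfl | hb'
    · exact absurd rfl hab
    · exact adj_symm (ht' b hb')
    · exact ht' a ha'
    · exact h2 a ha' b hb' hab
  have h4 : (fullPS B).dl 3 (Finsupp.single ((fullPS B).cell x J) 1) =
      (fullPS B).bd (Finsupp.single ((fullPS B).cell x J) 1) := by
    refine Finsupp.ext fun c => ?_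
    rw [EulerA.dl_apply]
    split_ifs with h
    · rfl
    · exact ((Finsupp.mem_supported' F2 _).1 h3 c h).symm
  obtain ⟨s, t, hst, rfl⟩ := Finset.card_eq_two.1 h1
  obtain ⟨a, b, hab, h5⟩ := hF.two s t (h2 s (by simp) t (by simp) hst)
  have h6 : (Finset.univ.filter fun r => ∀ q ∈ ({s, t} : Finset S), adj q r) = {a, b} := by
    ext r
    simpa using h5 r
  refine LinearMap.mem_ker.2 ?_
  rw [LinearMap.comp_apply, h4, bd_single, h6, Finset.sum_pair hab, map_add, tot_single,
    tot_single]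
  rfl

end EndMA

open EndMA in
theorem endM (hF : FactS) (ps : PsizeS) : EndMS := by
  intro B _ _ _ hB
  constructor
  · rw [← EulerA.finrank_Ck]
    refine Submodule.finrank_lt_finrank_of_lt (lt_of_le_of_ne ?_ fun e => ?_)
    · rintro _ ⟨u, -, rfl⟩
      exact EulerA.dl_mem _ 3 u
    · obtain ⟨J, hJ⟩ : (Finset.univ.filter fun J : Finset S => J.card = 3 ∧ Clq J).Nonempty :=
        Finset.card_pos.1 (by have := hF.n3; have := hF.big; omega)
      obtain ⟨a, b⟩ := (Finset.mem_filter.1 hJ).2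
      obtain ⟨x⟩ : Nonempty (fullPS B).Om := ‹Nonempty B›
      have h : Finsupp.single ((fullPS B).cell x J) (1 : F2) ∈ (fullPS B).Ck 3 :=
        Finsupp.single_mem_supported F2 _ ⟨x, J, a, b, full B _ _, rfl⟩
      rw [← e] at h
      obtain ⟨u, hu, e'⟩ := h
      have h2 := tot_dl B hF u hu
      rw [e', tot_single] at h2
      exact one_ne_zero h2
  · have h1 := count B ps hB 1
    have h2 := count B ps hB 2
    have h3 := count B ps hB 3
    have e : (Finset.univ.filter fun J : Finset S => J.card = 1 ∧ Clq J).card = nS := by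
      have : (Finset.univ.filter fun J : Finset S => J.card = 1 ∧ Clq J) =
          Finset.univ.image fun s : S => ({s} : Finset S) := by
        ext J
        simp only [Finset.mem_filter, Finset.mem_univ, true_and, Finset.mem_image,
          Finset.card_eq_one]
        constructor
        · rintro ⟨⟨s, rfl⟩, -⟩
          exact ⟨s, rfl⟩
        · rintro ⟨s, rfl⟩
          refine ⟨⟨s, rfl⟩, fun a ha b hb hab => absurd ?_ hab⟩
          rw [Finset.mem_singleton.1 ha, Finset.mem_singleton.1 hb]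
      rw [this, Finset.card_image_of_injective _ Finset.singleton_injective]
      rfl
    rw [e] at h1
    have k2 := congrArg (· * Nat.card B) hF.n2
    have k3 := congrArg (· * Nat.card B) hF.n3
    simp only [Nat.add_mul, Nat.mul_assoc] at k2 k3
    omega

end Pool.Agent.MP_df844f_gt.RA

end
end MrgPart4

-- ======== part 5: formerly Pool.Agent.MP_df844f_gt.RA.s5.Forest
section MrgPart5

/-! A breadth first forest on the vertices of an abstract surface. -/

set_option linter.unusedSectionVars false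

noncomputable section

namespace Pool.Agent.MP_df844f_gt.RA

variable [Dat]

namespace ForestA

theorem exists_parent (X : Surf) (hX : X.OK) (RV : Set X.V) (δ : ℕ)
    (h : ∀ v, ∃ u ∈ RV, Rn X.PAdj δ u v) :
    ∃ (dep : X.V → ℕ) (par : X.V → X.V) (pe : X.V → X.Ed), (∀ v, dep v ≤ δ) ∧
      (∀ v, dep v = 0 → v ∈ RV) ∧
      ∀ v, 0 < dep v → dep (par v) < dep v ∧
        ((X.p (pe v) = par v ∧ X.q (pe v) = v) ∨ (X.p (pe v) = v ∧ X.q (pe v) = par v)) := by
  classical
  have hex : ∀ v, ∃ n, ∃ u ∈ RV, Rn X.PAdj n u v := fun v => ⟨δ, h v⟩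
  have key : ∀ v, ∃ (y : X.V) (ε : X.Ed), 0 < Nat.find (hex v) →
      Nat.find (hex y) < Nat.find (hex v) ∧
        ((X.p ε = y ∧ X.q ε = v) ∨ (X.p ε = v ∧ X.q ε = y)) := by
    intro v
    by_cases h0 : 0 < Nat.find (hex v)
    · obtain ⟨n, hn⟩ := Nat.exists_eq_succ_of_ne_zero h0.ne'
      obtain ⟨u, hu, hr⟩ := Nat.find_spec (hex v)
      rw [hn] at hr
      rcases Rn.tail_cases hr with k | ⟨y, k1, ε, k2⟩
      · exact absurd ⟨u, hu, k⟩ (Nat.find_min (hex v) (by omega))
      · refine ⟨y, ε, fun _ => ⟨?_, k2⟩⟩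
        have : Nat.find (hex y) ≤ n := Nat.find_min' (hex y) ⟨u, hu, k1⟩
        omega
    · obtain ⟨ε, -⟩ := hX.covV v
      exact ⟨v, ε, fun k => absurd k h0⟩
  choose par pe hp using key
  refine ⟨fun v => Nat.find (hex v), par, pe, fun v => Nat.find_min' (hex v) (h v), ?_, hp⟩
  intro v hv
  obtain ⟨u, hu, hr⟩ := Nat.find_spec (hex v)
  have hv' : Nat.find (hex v) = 0 := hv
  rw [hv'] at hr
  cases hr
  exact hu

end ForestA

theorem forest : ForestS := by
  classical
  intro X hX RV δ h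
  obtain ⟨dep, par, pe, hδ, h0, hp⟩ := ForestA.exists_parent X hX RV δ h
  have hinj : Set.InjOn pe {v | 0 < dep v} := by
    intro a ha b hb e
    obtain ⟨a1, a2⟩ := hp a ha
    obtain ⟨b1, b2⟩ := hp b hb
    rw [e] at a2
    rcases a2 with ⟨a2, a3⟩ | ⟨a2, a3⟩ <;> rcases b2 with ⟨b2, b3⟩ | ⟨b2, b3⟩
    · exact a3.symm.trans b3
    · have e1 : par a = b := a2.symm.trans b2
      have e2 : par b = a := b3.symm.trans a3
      rw [e1] at a1; rw [e2] at b1; omega
    · have e1 : par a = b := a3.symm.trans b3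
      have e2 : par b = a := b2.symm.trans a2
      rw [e1] at a1; rw [e2] at b1; omega
    · exact a2.symm.trans b2
  refine ⟨pe '' {v | 0 < dep v}, ?_, fun P => ?_⟩
  · rw [hinj.ncard_image, ← Set.ncard_univ]
    refine le_trans (Set.ncard_le_ncard (t := {v | 0 < dep v} ∪ RV) ?_ (Set.toFinite _))
      (Set.ncard_union_le _ _)
    intro v _
    rcases Nat.eq_zero_or_pos (dep v) with k | k
    · exact Or.inr (h0 v k)
    · exact Or.inl k
  · have down : ∀ m v, δ - dep v ≤ m → 0 < dep v → X.cut P (pe v) →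
        ∃ ε k, X.cut P ε ∧ ε ∉ pe '' {v | 0 < dep v} ∧ k + dep v ≤ δ ∧
          (par^[k] (X.p ε) = v ∨ par^[k] (X.q ε) = v) := by
      intro m
      induction m using Nat.strong_induction_on with
      | _ m ih =>
        intro v hm hv hc
        have hinc : X.p (pe v) = v ∨ X.q (pe v) = v := by
          rcases (hp v hv).2 with k | k
          · exact Or.inr k.2
          · exact Or.inl k.1
        obtain ⟨ε, hne, hcε, hε⟩ := hX.par P (pe v) v hc hinc
        by_cases hF : ε ∈ pe '' {v | 0 < dep v}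
        · obtain ⟨w, hw, rfl⟩ := hF
          have hwv : w ≠ v := fun e => hne (by rw [e])
          obtain ⟨w1, w2⟩ := hp w hw
          have hpar : par w = v := by
            rcases w2 with ⟨w2, w3⟩ | ⟨w2, w3⟩ <;> rcases hε with k | k
            · exact w2.symm.trans k
            · exact absurd (w3.symm.trans k) hwv
            · exact absurd (w2.symm.trans k) hwv
            · exact w3.symm.trans k
          rw [hpar] at w1
          have hw' := hδ w
          obtain ⟨ε, k, c1, c2, c3, c4⟩ := ih (δ - dep w) (by omega) w le_rfl hw hcε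
          refine ⟨ε, k + 1, c1, c2, by omega, ?_⟩
          rw [Function.iterate_succ_apply', Function.iterate_succ_apply']
          rcases c4 with c4 | c4
          · exact Or.inl (by rw [c4, hpar])
          · exact Or.inr (by rw [c4, hpar])
        · exact ⟨ε, 0, hcε, hF, by simpa using hδ v, hε⟩
    let N : Set X.Ed := {ε | X.cut P ε ∧ ε ∉ pe '' {v | 0 < dep v}}
    have hN : N.Finite := Set.toFinite _
    let T : Finset (Bool × ℕ × X.Ed) := Finset.univ ×ˢ Finset.range δ ×ˢ hN.toFinset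
    let Φ : Bool × ℕ × X.Ed → X.Ed := fun t =>
      pe (par^[t.2.1] (if t.1 then X.p t.2.2 else X.q t.2.2))
    have hsub : {ε | X.cut P ε ∧ ε ∈ pe '' {v | 0 < dep v}} ⊆ ((T.image Φ : Finset X.Ed) : Set _) := by
      rintro ε ⟨hc, v, hv, rfl⟩
      have hv' : 0 < dep v := hv
      obtain ⟨ε, k, c1, c2, c3, c4⟩ := down _ v le_rfl hv hc
      have hk : k ∈ Finset.range δ := Finset.mem_range.2 (by omega)
      have hε : ε ∈ hN.toFinset := hN.mem_toFinset.2 ⟨c1, c2⟩
      rw [Finset.mem_coe, Finset.mem_image]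
      rcases c4 with c4 | c4
      · exact ⟨(true, k, ε), Finset.mem_product.2 ⟨Finset.mem_univ _, Finset.mem_product.2 ⟨hk, hε⟩⟩,
          by simp only [Φ, if_true, c4]⟩
      · exact ⟨(false, k, ε), Finset.mem_product.2 ⟨Finset.mem_univ _, Finset.mem_product.2 ⟨hk, hε⟩⟩,
          by simp only [Φ, Bool.false_eq_true, if_false, c4]⟩
    refine le_trans (Set.ncard_le_ncard hsub (Finset.finite_toSet _)) ?_
    rw [Set.ncard_coe_finset]
    refine le_trans Finset.card_image_le ?_
    have : T.card = 2 * δ * N.ncard := by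
      simp only [T, Finset.card_product, Finset.card_univ, Fintype.card_bool, Finset.card_range,
        Set.ncard_eq_toFinset_card N hN, mul_assoc]
    exact this.le

end Pool.Agent.MP_df844f_gt.RA

end
end MrgPart5

-- ======== part 6: formerly Pool.Agent.MP_df844f_gt.RA.s5.Inst
section MrgPart6

/-! The boundary of a union of thick components is an abstract surface. -/

set_option linter.unusedSectionVars false

noncomputable section

namespace Pool.Agent.MP_df844f_gt.RA

variable [Dat]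

open PS

namespace InstA

variable {B : Type} [MulAction W B] (Y : PS B) (U : Set Y.Om)

/-- Free sides in `U`. -/
abbrev Fa : Type := {p : Y.Om × S // p.1 ∈ U ∧ Y.Free p.1 p.2}

/-- Rank 2 cells with a free side in `U`. -/
abbrev Ed : Type := {c : Y.Cell // ∃ σ : Fa Y U, ∃ t, adj σ.1.2 t ∧ c = Y.cell σ.1.1 {σ.1.2, t}}

/-- Rank 3 cells with a free side in `U`. -/
abbrev Ve : Type := {c : Y.Cell // ∃ x ∈ U, ∃ J : Finset S, J.card = 3 ∧ Clq J ∧
  (∃ s ∈ J, Y.Free x s) ∧ c = Y.cell x J}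

/-- The two sides and the two end points of an edge. -/
structure ED (c : Y.Cell) : Type where
  l : Fa Y U
  r : Fa Y U
  tl : S
  tr : S
  a : S
  b : S
  hl : adj l.1.2 tl
  hr : adj r.1.2 tr
  cl : c = Y.cell l.1.1 {l.1.2, tl}
  cr : c = Y.cell r.1.1 {r.1.2, tr}
  ne : l ≠ r
  uniq : ∀ (σ : Fa Y U) t, adj σ.1.2 t → c = Y.cell σ.1.1 {σ.1.2, t} →
    (σ = l ∧ t = tl) ∨ (σ = r ∧ t = tr)
  hab : a ≠ b
  two : ∀ z, (adj l.1.2 z ∧ adj tl z) ↔ (z = a ∨ z = b)

variable {Y U}

theorem ed_nonempty (hF : FactS) (ed : EdgeS) (hB : Loc B) (hY : Y.State) (hU : Y.Shut U)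
    (ε : Ed Y U) : Nonempty (ED Y U ε.1) := by
  obtain ⟨c, σ, t, ht, rfl⟩ := ε
  obtain ⟨y, u, v, h1, h2, h3, h4, h5⟩ := ed B hB Y hY σ.1.1 σ.1.2 t ht σ.2.2
  obtain ⟨a, b, hab, h6⟩ := hF.two _ _ ht
  have hy : y ∈ U := by
    have e := (cell_eq_iff.1 h4).1
    rw [e] at h4
    obtain ⟨n, hn⟩ := cell_near h4.symm
    exact hn.shut hU σ.2.1
  refine ⟨⟨σ, ⟨(y, u), hy, h1⟩, t, v, a, b, ht, h2, rfl, h4.symm, ?_, ?_, hab, h6⟩⟩
  · intro k
    exact h3 (congrArg Subtype.val k).symm
  · intro τ z hz k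
    rcases h5 τ.1.1 τ.1.2 z τ.2.2 hz k.symm with ⟨k1, k2, k3⟩ | ⟨k1, k2, k3⟩
    · exact Or.inl ⟨Subtype.ext (Prod.ext k1 k2), k3⟩
    · exact Or.inr ⟨Subtype.ext (Prod.ext k1 k2), k3⟩

/-- The edge of a side in a given direction. -/
def mkE (σ : Fa Y U) (t : S) (h : adj σ.1.2 t) : Ed Y U := ⟨Y.cell σ.1.1 {σ.1.2, t}, σ, t, h, rfl⟩

/-- The corner of a side between two directions. -/
def mkV (σ : Fa Y U) (t a : S) (h1 : adj σ.1.2 t) (h2 : adj σ.1.2 a) (h3 : adj t a) : Ve Y U :=
  ⟨Y.cell σ.1.1 (insert a {σ.1.2, t}), σ.1.1, σ.2.1, insert a {σ.1.2, t},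
    Finset.card_eq_three.2 ⟨_, _, _, (adj_ne h2).symm, (adj_ne h3).symm, adj_ne h1, rfl⟩,
    by
      intro x hx y hy hne
      simp only [Finset.mem_insert, Finset.mem_singleton] at hx hy
      rcases hx with rfl | rfl | rfl <;> rcases hy with rfl | rfl | rfl <;>
        first | exact absurd rfl hne | assumption | exact adj_symm ‹_›,
    ⟨σ.1.2, by simp, σ.2.2⟩, rfl⟩

variable (dat : ∀ ε : Ed Y U, ED Y U ε.1)

/-- The surface. -/
def surf : Surf where
  F := Fa Y U
  Ed := Ed Y U
  V := Ve Y U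
  l ε := (dat ε).l
  r ε := (dat ε).r
  p ε := mkV (dat ε).l (dat ε).tl (dat ε).a (dat ε).hl (((dat ε).two _).2 (Or.inl rfl)).1
    (((dat ε).two _).2 (Or.inl rfl)).2
  q ε := mkV (dat ε).l (dat ε).tl (dat ε).b (dat ε).hl (((dat ε).two _).2 (Or.inr rfl)).1
    (((dat ε).two _).2 (Or.inr rfl)).2

theorem side_iff (ε : Ed Y U) (σ : Fa Y U) :
    ((surf dat).l ε = σ ∨ (surf dat).r ε = σ) ↔ ∃ t, ∃ h : adj σ.1.2 t, ε = mkE σ t h := by
  constructor
  · rintro (rfl | rfl)
    · exact ⟨_, (dat ε).hl, Subtype.ext (dat ε).cl⟩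
    · exact ⟨_, (dat ε).hr, Subtype.ext (dat ε).cr⟩
  · rintro ⟨t, h, k⟩
    rcases (dat ε).uniq σ t h (congrArg Subtype.val k) with k | k
    · exact Or.inl k.1.symm
    · exact Or.inr k.1.symm

theorem vert_iff (σ : Fa Y U) (t : S) (h : adj σ.1.2 t) (w : Ve Y U) :
    ((surf dat).p (mkE σ t h) = w ∨ (surf dat).q (mkE σ t h) = w) ↔
      ∃ z, ∃ (h2 : adj σ.1.2 z) (h3 : adj t z), w = mkV σ t z h h2 h3 := by
  have hc : Y.cell σ.1.1 {σ.1.2, t} = _ := (dat (mkE σ t h)).cl
  have e := (cell_eq_iff.1 hc).1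
  have hz : ∀ z, (adj σ.1.2 z ∧ adj t z) ↔
      (z = (dat (mkE σ t h)).a ∨ z = (dat (mkE σ t h)).b) := by
    intro z
    rw [← (dat (mkE σ t h)).two z]
    have k1 : (adj σ.1.2 z ∧ adj t z) ↔ ∀ x ∈ ({σ.1.2, t} : Finset S), adj x z := by simp
    rw [k1, e]; simp
  have hm : ∀ z, Y.cell (dat (mkE σ t h)).l.1.1
      (insert z {(dat (mkE σ t h)).l.1.2, (dat (mkE σ t h)).tl}) =
      Y.cell σ.1.1 (insert z {σ.1.2, t}) := by
    intro z
    rw [← e] at hc ⊢
    exact (cell_mono hc (Finset.subset_insert _ _)).symm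
  constructor
  · rintro (rfl | rfl)
    · exact ⟨_, ((hz _).2 (Or.inl rfl)).1, ((hz _).2 (Or.inl rfl)).2, Subtype.ext (hm _)⟩
    · exact ⟨_, ((hz _).2 (Or.inr rfl)).1, ((hz _).2 (Or.inr rfl)).2, Subtype.ext (hm _)⟩
  · rintro ⟨z, h2, h3, rfl⟩
    rcases (hz z).1 ⟨h2, h3⟩ with k | k
    · exact Or.inl (Subtype.ext ((hm _).trans (by rw [← k]; rfl)))
    · exact Or.inr (Subtype.ext ((hm _).trans (by rw [← k]; rfl)))

theorem mkV_comm (σ : Fa Y U) (t a : S) (h1 : adj σ.1.2 t) (h2 : adj σ.1.2 a) (h3 : adj t a) :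
    mkV σ t a h1 h2 h3 = mkV σ a t h2 h1 (adj_symm h3) := by
  refine Subtype.ext ?_
  show Y.cell σ.1.1 (insert a {σ.1.2, t}) = Y.cell σ.1.1 (insert t {σ.1.2, a})
  congr 1
  ext x; simp only [Finset.mem_insert, Finset.mem_singleton]; tauto

theorem step (σ : Fa Y U) (t a b : S) (h1 : adj σ.1.2 t) (h2 : adj σ.1.2 a) (h3 : adj t a)
    (h4 : adj σ.1.2 b) (h5 : adj t b) :
    Rn (surf dat).PAdj 1 (mkV σ t a h1 h2 h3) (mkV σ t b h1 h4 h5) := by
  rcases (vert_iff dat σ t h1 _).2 ⟨a, h2, h3, rfl⟩ with k | k <;>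
    rcases (vert_iff dat σ t h1 _).2 ⟨b, h4, h5, rfl⟩ with k' | k'
  · rw [← k, ← k']; exact Rn.refl _ _
  · exact Rn.single ⟨_, Or.inl ⟨k, k'⟩⟩
  · exact Rn.single ⟨_, Or.inr ⟨k', k⟩⟩
  · rw [← k, ← k']; exact Rn.refl _ _

theorem p_ne_q (ε : Ed Y U) : ((surf dat).p ε).1 ≠ ((surf dat).q ε).1 := by
  intro h
  have e : insert (dat ε).a ({(dat ε).l.1.2, (dat ε).tl} : Finset S) =
      insert (dat ε).b {(dat ε).l.1.2, (dat ε).tl} := (cell_eq_iff.1 h).1
  have k : (dat ε).a ∈ insert (dat ε).b ({(dat ε).l.1.2, (dat ε).tl} : Finset S) := by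
    rw [← e]; exact Finset.mem_insert_self _ _
  obtain ⟨k1, k2⟩ := ((dat ε).two _).2 (Or.inl rfl)
  simp only [Finset.mem_insert, Finset.mem_singleton] at k
  rcases k with k | k | k
  · exact (dat ε).hab k
  · exact adj_ne k1 k.symm
  · exact adj_ne k2 k.symm

theorem bd1_ed (ε : Ed Y U) : Y.bd1 ε.1 =
    Finsupp.single ((surf dat).p ε).1 1 + Finsupp.single ((surf dat).q ε).1 1 := by
  have e : Finset.univ.filter (fun z => ∀ s ∈ ({(dat ε).l.1.2, (dat ε).tl} : Finset S), adj s z) =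
      {(dat ε).a, (dat ε).b} := by
    ext z
    have := (dat ε).two z
    simp only [Finset.mem_filter, Finset.mem_univ, true_and, Finset.mem_insert,
      Finset.mem_singleton, forall_eq_or_imp, forall_eq]
    exact this
  rw [(dat ε).cl]
  show (∑ z ∈ Finset.univ.filter
      (fun z => ∀ s ∈ ({(dat ε).l.1.2, (dat ε).tl} : Finset S), adj s z),
      Finsupp.single (Y.cell (dat ε).l.1.1 (insert z {(dat ε).l.1.2, (dat ε).tl})) (1 : F2)) = _
  rw [e, Finset.sum_pair (dat ε).hab]
  rfl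

/-- The inclusion of sides. -/
def emb (Y : PS B) (U : Set Y.Om) : Fa Y U ↪ Y.Om × S := Function.Embedding.subtype _

theorem supp_iff (bd : BdS) (hB : Loc B) (hY : Y.State) (D : Finset (Fa Y U)) (c : Y.Cell) :
    c ∈ (Y.bd (Y.ch1 (D.map (emb Y U)))).support ↔
      ∃ ε : Ed Y U, (surf dat).cut (D : Set (Fa Y U)) ε ∧ ε.1 = c := by
  have hfree : ∀ p ∈ D.map (emb Y U), Y.Free p.1 p.2 := by
    intro p hp
    obtain ⟨σ, _, rfl⟩ := Finset.mem_map.1 hp
    exact σ.2.2
  rw [bd B hB Y hY _ hfree c]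
  constructor
  · rintro ⟨p, hp, t, ht, rfl, hu⟩
    obtain ⟨σ, hσ, rfl⟩ := Finset.mem_map.1 hp
    refine ⟨mkE σ t ht, fun k => ?_, rfl⟩
    have both : (dat (mkE σ t ht)).l ∈ D ∧ (dat (mkE σ t ht)).r ∈ D := by
      rcases (side_iff dat _ σ).2 ⟨t, ht, rfl⟩ with q | q
      · have q1 : (dat (mkE σ t ht)).l ∈ D := by
          have q' : (dat (mkE σ t ht)).l = σ := q
          rw [q']; exact hσ
        exact ⟨q1, k.1 q1⟩
      · have q1 : (dat (mkE σ t ht)).r ∈ D := by
          have q' : (dat (mkE σ t ht)).r = σ := q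
          rw [q']; exact hσ
        exact ⟨k.2 q1, q1⟩
    have e1 := hu _ (Finset.mem_map_of_mem _ both.1) _ (dat (mkE σ t ht)).hl
      (dat (mkE σ t ht)).cl.symm
    have e2 := hu _ (Finset.mem_map_of_mem _ both.2) _ (dat (mkE σ t ht)).hr
      (dat (mkE σ t ht)).cr.symm
    exact (dat (mkE σ t ht)).ne ((emb Y U).injective (e1.trans e2.symm))
  · rintro ⟨ε, hc, rfl⟩
    have hc' : ¬ ((dat ε).l ∈ D ↔ (dat ε).r ∈ D) := hc
    by_cases k : (dat ε).l ∈ D
    · refine ⟨_, Finset.mem_map_of_mem _ k, _, (dat ε).hl, (dat ε).cl, fun q hq t' h1 h2 => ?_⟩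
      obtain ⟨σ, hσ, rfl⟩ := Finset.mem_map.1 hq
      rcases (dat ε).uniq σ t' h1 h2.symm with e | e
      · rw [e.1]
      · exact absurd (iff_of_true k (e.1 ▸ hσ)) hc'
    · have k' : (dat ε).r ∈ D := by tauto
      refine ⟨_, Finset.mem_map_of_mem _ k', _, (dat ε).hr, (dat ε).cr, fun q hq t' h1 h2 => ?_⟩
      obtain ⟨σ, hσ, rfl⟩ := Finset.mem_map.1 hq
      rcases (dat ε).uniq σ t' h1 h2.symm with e | e
      · exact absurd (e.1 ▸ hσ) k
      · rw [e.1]

theorem par (bd : BdS) (hB : Loc B) (hY : Y.State) (P : Set (Fa Y U)) (ε : Ed Y U) (v : Ve Y U)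
    (hc : (surf dat).cut P ε) (hv : (surf dat).p ε = v ∨ (surf dat).q ε = v) :
    ∃ ε', ε' ≠ ε ∧ (surf dat).cut P ε' ∧ ((surf dat).p ε' = v ∨ (surf dat).q ε' = v) := by
  classical
  by_contra hn
  obtain ⟨D, rfl⟩ : ∃ D : Finset (Fa Y U), (D : Set (Fa Y U)) = P :=
    ⟨(Set.toFinite P).toFinset, Set.Finite.coe_toFinset _⟩
  have h0 := Y.bd_bd (Y.ch1 (D.map (emb Y U)))
  have hs := supp_iff dat bd hB hY D
  generalize Y.bd (Y.ch1 (D.map (emb Y U))) = β at h0 hs
  have h1 : (Y.bd β) v.1 = ∑ c ∈ β.support, β c * Y.bd1 c v.1 := by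
    unfold PS.bd
    rw [Finsupp.linearCombination_apply, Finsupp.sum, Finsupp.finsetSum_apply]
    rfl
  have hm : ε.1 ∈ β.support := (hs _).2 ⟨ε, hc, rfl⟩
  rw [h0, Finset.sum_eq_single_of_mem ε.1 hm] at h1
  · have k1 : β ε.1 ≠ 0 := Finsupp.mem_support_iff.1 hm
    have k2 : Y.bd1 ε.1 v.1 = 1 := by
      rw [bd1_ed dat, Finsupp.add_apply]
      rcases hv with rfl | rfl
      · rw [Finsupp.single_eq_same, Finsupp.single_eq_of_ne (p_ne_q dat ε), add_zero]
      · rw [Finsupp.single_eq_same, Finsupp.single_eq_of_ne (p_ne_q dat ε).symm, zero_add]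
    rw [k2, mul_one] at h1
    exact k1 h1.symm
  · intro c hc' hne
    obtain ⟨ε', k, rfl⟩ := (hs c).1 hc'
    have k1 : ¬ ((surf dat).p ε' = v ∨ (surf dat).q ε' = v) := fun q =>
      hn ⟨ε', fun e => hne (congrArg Subtype.val e), k, q⟩
    rw [bd1_ed dat, Finsupp.add_apply,
      Finsupp.single_eq_of_ne fun e => k1 (Or.inl (Subtype.ext e.symm)),
      Finsupp.single_eq_of_ne fun e => k1 (Or.inr (Subtype.ext e.symm)), add_zero, mul_zero]

theorem card_nb (s : S) : Nat.card {t // adj s t} ≤ nS :=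
  (Finite.card_subtype_le _).trans natCard_S.le

theorem walk (σ : Fa Y U) {n : ℕ} {t u : S}
    (k : Rn (fun a b => adj σ.1.2 a ∧ adj σ.1.2 b ∧ adj a b) n t u) :
    ∀ (ht : adj σ.1.2 t) (hu : adj σ.1.2 u) z y (z1 : adj σ.1.2 z) (z2 : adj t z)
      (y1 : adj σ.1.2 y) (y2 : adj u y),
      Rn (surf dat).PAdj (n + 1) (mkV σ t z ht z1 z2) (mkV σ u y hu y1 y2) := by
  induction k with
  | refl n t => exact fun ht _ z y z1 z2 y1 y2 => (step dat σ t z y ht z1 z2 y1 y2).mono (by omega)
  | @step n t v u a _ ih =>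
    intro ht hu z y z1 z2 y1 y2
    have a1 := step dat σ t z v ht z1 z2 a.2.1 a.2.2
    rw [mkV_comm σ t v] at a1
    exact (a1.trans (ih a.2.1 hu t y ht (adj_symm a.2.2) y1 y2)).mono (by omega)

theorem ok (hF : FactS) (bd : BdS) (hB : Loc B) (hY : Y.State) : (surf dat).OK where
  deg σ := by
    have h : {ε | (surf dat).l ε = σ ∨ (surf dat).r ε = σ} ⊆
        (fun t : {t // adj σ.1.2 t} => mkE σ t.1 t.2) '' Set.univ := by
      intro ε hε
      obtain ⟨t, ht, e⟩ := (side_iff dat ε σ).1 hε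
      exact ⟨⟨t, ht⟩, trivial, e.symm⟩
    refine (Set.ncard_le_ncard h (Set.toFinite _)).trans
      ((Set.ncard_image_le (Set.toFinite _)).trans ?_)
    rw [Set.ncard_univ]
    exact card_nb _
  par := par dat bd hB hY
  cor σ ε ε' h h' := by
    obtain ⟨t, ht, rfl⟩ := (side_iff dat ε σ).1 h
    obtain ⟨u, hu, rfl⟩ := (side_iff dat ε' σ).1 h'
    obtain ⟨z, z1, z2, e⟩ := (vert_iff dat σ t ht _).1 (Or.inl rfl)
    obtain ⟨y, y1, y2, e'⟩ := (vert_iff dat σ u hu _).1 (Or.inl rfl)
    rw [e, e']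
    exact walk dat σ (rn_of_reflTransGen Finset.univ (fun _ _ _ => Finset.mem_univ _)
      (hF.lnk _ t u ht hu)) ht hu z y z1 z2 y1 y2
  covV v := by
    obtain ⟨c, x, hx, J, h3, hJ, ⟨s, hs, hf⟩, rfl⟩ := v
    obtain ⟨t, a, hta, e⟩ := Finset.card_eq_two.1
      (show (J.erase s).card = 2 by rw [Finset.card_erase_of_mem hs, h3])
    have ht : t ∈ J.erase s := by rw [e]; simp
    have ha : a ∈ J.erase s := by rw [e]; simp
    obtain ⟨t1, t2⟩ := Finset.mem_erase.1 ht
    obtain ⟨a1, a2⟩ := Finset.mem_erase.1 ha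
    have eJ : J = insert a {s, t} := by
      rw [← Finset.insert_erase hs, e]
      ext x; simp only [Finset.mem_insert, Finset.mem_singleton]; tauto
    refine ⟨mkE ⟨(x, s), hx, hf⟩ t (hJ s hs t t2 t1.symm), (vert_iff dat _ _ _ _).2
      ⟨a, hJ s hs a a2 a1.symm, hJ t t2 a a2 hta, Subtype.ext ?_⟩⟩
    show Y.cell x J = Y.cell x (insert a {s, t})
    rw [← eJ]
  covF σ := by
    obtain ⟨t, ht⟩ := exists_adj σ.1.2
    exact ⟨mkE σ t ht, (side_iff dat _ σ).2 ⟨t, _, rfl⟩⟩

include dat in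
theorem card_ed : 2 * Nat.card (Ed Y U) = Y.nD U := by
  classical
  let f : Ed Y U × Bool → (Σ σ : Fa Y U, {t // adj σ.1.2 t}) := fun p =>
    match p.2 with
    | false => ⟨(dat p.1).l, (dat p.1).tl, (dat p.1).hl⟩
    | true => ⟨(dat p.1).r, (dat p.1).tr, (dat p.1).hr⟩
  have back : ∀ p, mkE (f p).1 (f p).2.1 (f p).2.2 = p.1 := by
    rintro ⟨ε, _ | _⟩
    · exact Subtype.ext (dat ε).cl.symm
    · exact Subtype.ext (dat ε).cr.symm
  have hf : Function.Bijective f := by
    constructor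
    · rintro ⟨ε, i⟩ ⟨ε', j⟩ h
      have e : ε = ε' := by
        have := back (ε, i)
        rw [h, back (ε', j)] at this
        exact this.symm
      subst e
      have h1 := congrArg Sigma.fst h
      cases i <;> cases j
      · rfl
      · exact absurd h1 (dat ε).ne
      · exact absurd h1.symm (dat ε).ne
      · rfl
    · rintro ⟨σ, t, ht⟩
      have aux : ∀ (τ : Fa Y U) (z : S) (hz : adj τ.1.2 z), σ = τ ∧ t = z →
          (⟨τ, z, hz⟩ : Σ σ : Fa Y U, {t // adj σ.1.2 t}) = ⟨σ, t, ht⟩ := by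
        rintro _ _ _ ⟨rfl, rfl⟩; rfl
      rcases (dat (mkE σ t ht)).uniq σ t ht rfl with k | k
      · exact ⟨(mkE σ t ht, false), aux _ _ _ k⟩
      · exact ⟨(mkE σ t ht, true), aux _ _ _ k⟩
  have h := Nat.card_eq_of_bijective f hf
  have h2 : Nat.card (Σ σ : Fa Y U, {t // adj σ.1.2 t}) = Y.nD U :=
    (Nat.card_congr (β := {p : (Y.Om × S) × S | p.1.1 ∈ U ∧ Y.Free p.1.1 p.1.2 ∧ adj p.1.2 p.2})
      ⟨fun q => ⟨(q.1.1, q.2.1), q.1.2.1, q.1.2.2, q.2.2⟩,
        fun p => ⟨⟨p.1.1, p.2.1, p.2.2.1⟩, p.1.2, p.2.2.2⟩, fun _ => rfl, fun _ => rfl⟩).trans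
      (Nat.card_coe_set_eq _)
  have hb : Nat.card Bool = 2 := by simp
  rw [Nat.card_prod, h2, hb] at h
  omega

theorem badj_of (a b : Fa Y U) (h : (surf dat).DAdj a b) : Y.BAdj a.1 b.1 := by
  obtain ⟨ε, _, h⟩ := h
  obtain ⟨t, ht, e⟩ := (side_iff dat ε a).1 (by tauto)
  obtain ⟨u, hu, e'⟩ := (side_iff dat ε b).1 (by tauto)
  exact ⟨a.2.2, b.2.2, t, u, ht, hu, congrArg Subtype.val (e.symm.trans e')⟩

theorem of_badj (a b : Fa Y U) (h : Y.BAdj a.1 b.1) : a = b ∨ (surf dat).DAdj a b := by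
  obtain ⟨_, _, t, u, ht, hu, e⟩ := h
  rcases (side_iff dat (mkE a t ht) a).2 ⟨t, ht, rfl⟩ with k | k <;>
    rcases (side_iff dat (mkE a t ht) b).2 ⟨u, hu, Subtype.ext e⟩ with k' | k'
  · exact Or.inl (k.symm.trans k')
  · exact Or.inr ⟨_, trivial, Or.inl ⟨k, k'⟩⟩
  · exact Or.inr ⟨_, trivial, Or.inr ⟨k', k⟩⟩
  · exact Or.inl (k.symm.trans k')

theorem ncomp_eq : (surf dat).ncomp Set.univ = Y.nB U := by
  refine Nat.card_congr ⟨Quot.lift (Quot.mk _) fun a b h => Quot.sound (badj_of dat a b h),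
    Quot.lift (Quot.mk _) fun a b h => ?_, ?_, ?_⟩
  · rcases of_badj dat a b h with rfl | k
    · rfl
    · exact Quot.sound k
  · rintro ⟨a⟩; rfl
  · rintro ⟨a⟩; rfl

end InstA

theorem inst (hF : FactS) (ed : EdgeS) (bd : BdS) : InstS := by
  intro B _ hB Y U hY hU
  have dat : ∀ ε : InstA.Ed Y U, InstA.ED Y U ε.1 := fun ε =>
    Classical.choice (InstA.ed_nonempty hF ed hB hY hU ε)
  have hF' : Nat.card (InstA.Fa Y U) = Y.nF U := Nat.card_coe_set_eq _
  refine ⟨InstA.surf dat, InstA.emb Y U, InstA.ok dat hF bd hB hY, fun a => a.2, hF',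
    Nat.card_coe_set_eq _, ?_, InstA.ncomp_eq dat, InstA.badj_of dat, fun D => ?_⟩
  · exact InstA.card_ed dat
  · rw [← Set.ncard_coe_finset]
    refine (Set.ncard_image_of_injective (α := InstA.Ed Y U) _ Subtype.val_injective).symm.trans ?_
    congr 1
    ext c
    exact (InstA.supp_iff dat bd hB hY D c).symm

end Pool.Agent.MP_df844f_gt.RA

end
end MrgPart6

-- ======== part 7: formerly Pool.Agent.MP_df844f_gt.RA.s5.Surj
section MrgPart7

/-! Every thick component of a small prestate has a free side, and then the top coboundary of the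
dual cube complex is onto. -/

set_option linter.unusedSectionVars false

noncomputable section

namespace Pool.Agent.MP_df844f_gt.RA

variable [Dat]

open PS

theorem freeEx : FreeExS := by
  intro B _ _ o ho Y hv x
  by_contra hne
  have hfree : ∀ y n s, Y.Near n x y → ∃ z, Y.e s y z := fun y n s h => by
    by_contra k
    exact hne ⟨y, s, n, h, k⟩
  have key : ∀ w : W, ∃ y n, Y.Near n x y ∧ Y.f y = w • Y.f x := by
    intro w
    induction w using induction_left with
    | h1 => exact ⟨x, 0, Near.refl _ _, (one_smul _ _).symm⟩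
    | h2 w s ih =>
      obtain ⟨y, n, h, e⟩ := ih
      obtain ⟨z, hz⟩ := hfree y n s h
      exact ⟨z, n + 1, h.trans (Near.single hz), by rw [Y.e_f hz, e, mul_smul]⟩
  have hs : Function.Surjective Y.f := by
    intro b
    obtain ⟨v, hv⟩ := ho (Y.f x)
    obtain ⟨w, rfl⟩ := ho b
    obtain ⟨y, -, -, e⟩ := key (w * v⁻¹)
    exact ⟨y, by rw [e, ← hv, smul_smul, inv_mul_cancel_right]⟩
  exact absurd (Nat.card_le_card_of_surjective _ hs) (not_le.2 hv)

namespace SurjA

variable {B : Type} [MulAction W B] (Y : PS B)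

open Classical in
/-- Restriction to the full cells of rank three. -/
noncomputable def pr : Y.Chain →ₗ[F2] Y.Chain :=
  (Y.Ck 3).subtype ∘ₗ Finsupp.restrictDom F2 F2 (Y.FC 3)

theorem dl_eq (u : Y.Chain) : Y.dl 3 u = pr Y (Y.bd u) := rfl

theorem pr_mem (u : Y.Chain) : pr Y u ∈ Y.Ck 3 := Subtype.property _

theorem pr_pos {c : Y.Cell} (h : c ∈ Y.FC 3) : pr Y (Finsupp.single c 1) = Finsupp.single c 1 := by
  classical
  exact Finsupp.filter_single_of_pos (fun c => c ∈ Y.FC 3) h

theorem pr_neg {c : Y.Cell} (h : c ∉ Y.FC 3) : pr Y (Finsupp.single c 1) = 0 := by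
  classical
  exact Finsupp.filter_single_of_neg (fun c => c ∈ Y.FC 3) h

/-- The indicator of the cell, restricted to full cells, is a coboundary. -/
def P (x : Y.Om) (J : Finset S) : Prop :=
  pr Y (Finsupp.single (Y.cell x J) 1) ∈ (Y.Ck 2).map (Y.dl 3)

variable {Y}

theorem P_of_not_full {x : Y.Om} {J : Finset S} (h : ¬ Y.Full x J) : P Y x J := by
  unfold P
  rw [pr_neg]
  · exact Submodule.zero_mem _
  · rintro ⟨y, J', -, -, hf, e⟩
    obtain rfl := (cell_eq_iff.1 e).1
    exact h (hf.congr e)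

theorem third {J : Finset S} {s t : S} (hJ : J.card = 3) (hc : Clq J) (hs : s ∈ J) (ht : t ∈ J)
    (hst : s ≠ t) : ∃ u, adj s u ∧ adj t u ∧ J = insert u {s, t} := by
  have h2 : ({s, t} : Finset S).card = 2 := Finset.card_pair hst
  have hsub : ({s, t} : Finset S) ⊆ J := by
    intro a ha
    rcases Finset.mem_insert.1 ha with rfl | ha
    · exact hs
    · exact Finset.mem_singleton.1 ha ▸ ht
  obtain ⟨u, hu, hn⟩ := Finset.exists_mem_notMem_of_card_lt_card (s := {s, t}) (t := J) (by omega)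
  have hus : s ≠ u := fun k => hn (by simp [k])
  have hut : t ≠ u := fun k => hn (by simp [k])
  refine ⟨u, hc s hs u hu hus, hc t ht u hu hut, ?_⟩
  refine (Finset.eq_of_subset_of_card_le (Finset.insert_subset hu hsub) ?_).symm
  rw [Finset.card_insert_of_notMem hn]
  omega

theorem P_flip (hF : FactS) {x : Y.Om} {J J' : Finset S} (h1 : J.card = 3) (c1 : Clq J)
    (h2 : J'.card = 3) (c2 : Clq J') (hi : (J ∩ J').card = 2) (h : P Y x J) : P Y x J' := by
  obtain ⟨s, t, hst, hI⟩ := Finset.card_eq_two.1 hi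
  have ms : s ∈ J ∩ J' := by rw [hI]; simp
  have mt : t ∈ J ∩ J' := by rw [hI]; simp
  rw [Finset.mem_inter] at ms mt
  have hadj : adj s t := c1 s ms.1 t mt.1 hst
  by_cases hf : Y.Full x {s, t}
  swap
  · exact P_of_not_full fun k => hf (k.mono (hI ▸ Finset.inter_subset_right))
  obtain ⟨a, a1, a2, ha⟩ := third h1 c1 ms.1 mt.1 hst
  obtain ⟨b, b1, b2, hb⟩ := third h2 c2 ms.2 mt.2 hst
  have hab : a ≠ b := by
    rintro rfl
    rw [hb, ← ha, Finset.inter_self] at hi
    omega
  obtain ⟨u, v, huv, hx⟩ := hF.two s t hadj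
  have hfil : Finset.univ.filter (fun r => ∀ q ∈ ({s, t} : Finset S), adj q r) = {a, b} := by
    ext r
    have k1 := (hx a).1 ⟨a1, a2⟩
    have k2 := (hx b).1 ⟨b1, b2⟩
    have k3 := hx r
    simp only [Finset.mem_filter, Finset.mem_univ, true_and, Finset.mem_insert,
      Finset.mem_singleton, forall_eq_or_imp, forall_eq, k3]
    rcases k1 with rfl | rfl <;> rcases k2 with rfl | rfl
    · exact absurd rfl hab
    · rfl
    · exact or_comm
    · exact absurd rfl hab
  have hmem : Finsupp.single (Y.cell x {s, t}) (1 : F2) ∈ Y.Ck 2 :=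
    Finsupp.single_mem_supported F2 1 ⟨x, {s, t}, Finset.card_pair hst,
      fun p hp q hq => c1 p (Finset.mem_inter.1 (hI ▸ hp)).1 q (Finset.mem_inter.1 (hI ▸ hq)).1,
      hf, rfl⟩
  have hsum := Submodule.mem_map_of_mem (f := Y.dl 3) hmem
  rw [dl_eq, bd_single, hfil, Finset.sum_pair hab, map_add, ← ha, ← hb] at hsum
  exact (Submodule.add_mem_iff_right _ h).1 hsum

theorem P_all (hF : FactS) {x : Y.Om} {J J' : Finset S} (h1 : J.card = 3) (c1 : Clq J)
    (h2 : J'.card = 3) (c2 : Clq J') (h : P Y x J) : P Y x J' := by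
  have := hF.tri J J' h1 c1 h2 c2
  clear h2 c2
  induction this with
  | refl => exact h
  | tail _ k ih => exact P_flip hF k.1 k.2.1 k.2.2.1 k.2.2.2.1 k.2.2.2.2 ih

theorem tri_ex (hF : FactS) (s : S) : ∃ J : Finset S, J.card = 3 ∧ Clq J ∧ s ∈ J := by
  obtain ⟨t, ht⟩ := exists_adj s
  obtain ⟨u, v, -, hx⟩ := hF.two s t ht
  obtain ⟨a, b⟩ := (hx u).2 (Or.inl rfl)
  refine ⟨{s, t, u}, Finset.card_eq_three.2 ⟨s, t, u, adj_ne ht, adj_ne a, adj_ne b, rfl⟩,
    fun p hp q hq hpq => ?_, by simp⟩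
  simp only [Finset.mem_insert, Finset.mem_singleton] at hp hq
  rcases hp with rfl | rfl | rfl <;> rcases hq with rfl | rfl | rfl
  exacts [absurd rfl hpq, ht, a, adj_symm ht, absurd rfl hpq, b, adj_symm a, adj_symm b,
    absurd rfl hpq]

theorem P_near (hF : FactS) {n : ℕ} {x y : Y.Om} (h : Y.Near n x y) {s : S} (hs : Y.Free y s) :
    ∀ J : Finset S, J.card = 3 → Clq J → P Y x J := by
  induction h with
  | refl n x =>
    intro J h1 c1
    obtain ⟨J0, h0, c0, m0⟩ := tri_ex hF s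
    exact P_all hF h0 c0 h1 c1 (P_of_not_full fun k => k x rfl s m0 hs)
  | @step n t x y z he _ ih =>
    intro J h1 c1
    obtain ⟨J0, h0, c0, m0⟩ := tri_ex hF t
    refine P_all hF h0 c0 h1 c1 ?_
    have := ih hs J0 h0 c0
    unfold P at this ⊢
    rwa [cell_e m0 he]

end SurjA

open SurjA

theorem surj (hF : FactS) : SurjS := by
  classical
  intro B _ Y _ hx
  have e : (Y.Ck 2).map (Y.dl 3) = Y.Ck 3 := by
    refine le_antisymm ?_ ?_
    · rintro _ ⟨u, -, rfl⟩
      exact pr_mem Y _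
    · change Finsupp.supported F2 F2 (Y.FC 3) ≤ _
      rw [Finsupp.supported_eq_span_single, Submodule.span_le]
      rintro _ ⟨c, hc, rfl⟩
      have hc' := hc
      obtain ⟨x, J, h1, c1, -, rfl⟩ := hc'
      obtain ⟨y, s, n, h, hs⟩ := hx x
      have := P_near hF h hs J h1 c1
      unfold P at this
      rwa [pr_pos Y hc] at this
  have := Fintype.ofFinite (Y.FC 3)
  unfold PS.bb PS.nC
  rw [e]
  refine (Finsupp.supportedEquivFinsupp (M := F2) (R := F2) (Y.FC 3)).finrank_eq.trans ?_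
  rw [Module.finrank_finsupp_self, ← Nat.card_eq_fintype_card, Nat.card_coe_set_eq]

end Pool.Agent.MP_df844f_gt.RA

end
end MrgPart7

-- ======== part 8: formerly Pool.Agent.MP_df844f_gt.RA.s5.TauV
section MrgPart8

/-! The Euler characteristic of the orbits of a triangle of labels. -/

set_option linter.unusedSectionVars false

noncomputable section

namespace Pool.Agent.MP_df844f_gt.RA

variable [Dat]

open PS Module

namespace TauVA

variable {B : Type} [MulAction W B] (Y : PS B)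

/-- Functions that are constant on `J`-orbits and vanish at chambers with a free side in `J`. -/
def P (J : Finset S) : Submodule F2 (Y.Om → F2) where
  carrier := {φ | ∀ v ∈ J, (∀ x y, Y.e v x y → φ x = φ y) ∧ ∀ x, Y.Free x v → φ x = 0}
  add_mem' ha hb v hv :=
    ⟨fun x y e => by simp [(ha v hv).1 x y e, (hb v hv).1 x y e],
      fun x e => by simp [(ha v hv).2 x e, (hb v hv).2 x e]⟩
  zero_mem' _ _ := ⟨fun _ _ _ => rfl, fun _ _ => rfl⟩
  smul_mem' c _ ha v hv :=
    ⟨fun x y e => by simp [(ha v hv).1 x y e], fun x e => by simp [(ha v hv).2 x e]⟩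

/-- Full cells of type `J`. -/
abbrev FJ (J : Finset S) : Set Y.Cell := {c | ∃ x, Y.Full x J ∧ c = Y.cell x J}

variable {Y}

theorem P_cell {J : Finset S} {φ : Y.Om → F2} (h : φ ∈ P Y J) {x y : Y.Om}
    (k : Y.cell x J = Y.cell y J) : φ x = φ y := by
  have := (cell_eq_iff.1 k).2
  clear k
  induction this with
  | refl => rfl
  | tail _ q ih =>
    obtain ⟨s, hs, e⟩ := q
    exact ih.trans ((h s hs).1 _ _ e)

theorem P_anti {J J' : Finset S} (h : J ⊆ J') : P Y J' ≤ P Y J := fun _ k v hv => k v (h hv)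

theorem rank_P (J : Finset S) : finrank F2 (P Y J) = (FJ Y J).ncard := by
  classical
  have := Fintype.ofFinite (FJ Y J)
  choose r r1 r2 using fun c : FJ Y J => c.2
  let L : P Y J →ₗ[F2] (FJ Y J → F2) := (LinearMap.funLeft F2 F2 r).comp (P Y J).subtype
  have hL : Function.Bijective L := by
    refine ⟨(injective_iff_map_eq_zero L).2 fun φ h => Subtype.ext (funext fun x => ?_),
      fun z => ⟨⟨fun x => if h : Y.Full x J then z ⟨_, x, h, rfl⟩ else 0, fun v hv =>
        ⟨fun x y e => ?_, fun x e => dif_neg fun k => k x rfl v hv e⟩⟩, funext fun c => ?_⟩⟩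
    · by_cases k : Y.Full x J
      · exact (P_cell φ.2 (r2 ⟨_, x, k, rfl⟩)).trans (congrFun h ⟨_, x, k, rfl⟩)
      · simp only [Full, not_forall, not_not] at k
        obtain ⟨y, k1, v, k2, k3⟩ := k
        exact (P_cell φ.2 k1).symm.trans ((φ.2 v k2).2 y k3)
    · have k := cell_e hv e
      by_cases a : Y.Full x J
      · simp only [dif_pos a, dif_pos (a.congr k.symm), k]
      · simp only [dif_neg a, dif_neg fun b : Y.Full y J => a (b.congr k)]
    · exact (dif_pos (r1 c)).trans (congrArg z (Subtype.ext (r2 c).symm))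
  rw [(LinearEquiv.ofBijective L hL).finrank_eq, finrank_fintype_fun_eq_card,
    ← Nat.card_eq_fintype_card, Nat.card_coe_set_eq]

/-- The quotient by edge functions has dimension at most the number of orbits. -/
theorem vol_le (hY : Y.State) (J : Finset S) (M : Submodule F2 (Y.Om → F2))
    (hM : ∀ v ∈ J, P Y {v} ≤ M) :
    Y.vol ≤ finrank F2 M + {c | ∃ x, c = Y.cell x J}.ncard := by
  classical
  have := Fintype.ofFinite Y.Om
  have := Fintype.ofFinite {c | ∃ x, c = Y.cell x J}
  choose r hr using fun c : {c | ∃ x, c = Y.cell x J} => c.2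
  let N := Submodule.span F2 (Set.range fun c => (Pi.single (r c) 1 : Y.Om → F2))
  have a : ∀ x y, Relation.ReflTransGen (Y.JE J) x y → (Pi.single y 1 : Y.Om → F2) ∈ M ⊔ N →
      (Pi.single x 1 : Y.Om → F2) ∈ M ⊔ N := fun x y h k => by
    induction h using Relation.ReflTransGen.head_induction_on with
    | refl => exact k
    | @head a b q _ ih =>
      obtain ⟨v, hv, e⟩ := q
      have m : (Pi.single a 1 + Pi.single b 1 : Y.Om → F2) ∈ P Y {v} := fun v' hv' => by
        obtain rfl := Finset.mem_singleton.1 hv'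
        refine ⟨fun x y f => ?_, fun x f => ?_⟩
        · have k1 : x = a ↔ y = b := ⟨fun k => hY.fold (k ▸ f) e,
            fun k => hY.fold (Y.e_symm (k ▸ f)) (Y.e_symm e)⟩
          have k2 : x = b ↔ y = a := ⟨fun k => hY.fold (k ▸ f) (Y.e_symm e),
            fun k => hY.fold (Y.e_symm (k ▸ f)) e⟩
          simp only [Pi.add_apply, Pi.single_apply, k1, k2, add_comm]
        · have k1 : x ≠ a := fun k => f ⟨b, k ▸ e⟩
          have k2 : x ≠ b := fun k => f ⟨a, k ▸ Y.e_symm e⟩
          simp [k1, k2]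
      simpa using Submodule.sub_mem _ (Submodule.mem_sup_left (hM v hv m)) ih
  have b : M ⊔ N = ⊤ := by
    rw [eq_top_iff, ← (Pi.basisFun F2 Y.Om).span_eq, Submodule.span_le]
    rintro _ ⟨x, rfl⟩
    rw [Pi.basisFun_apply]
    exact a x _ (cell_eq_iff.1 (hr ⟨_, x, rfl⟩)).2
      (Submodule.mem_sup_right (Submodule.subset_span ⟨_, rfl⟩))
  have c := Submodule.finrank_add_le_finrank_add_finrank M N
  have e : finrank F2 N ≤ _ := finrank_range_le_card _
  rw [b, finrank_top, finrank_fintype_fun_eq_card, ← Nat.card_eq_fintype_card] at c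
  rw [← Nat.card_eq_fintype_card, Nat.card_coe_set_eq] at e
  exact c.trans (Nat.add_le_add_left e _)

theorem orb_le (J : Finset S) : {c | ∃ x, c = Y.cell x J}.ncard ≤
    {c | ∃ x, (∃ v ∈ J, Y.Free x v) ∧ c = Y.cell x J}.ncard + (FJ Y J).ncard := by
  refine (Set.ncard_le_ncard ?_).trans (Set.ncard_union_le _ _)
  rintro _ ⟨x, rfl⟩
  by_cases k : Y.Full x J
  · exact Or.inr ⟨x, k, rfl⟩
  · simp only [Full, not_forall, not_not] at k
    obtain ⟨y, k1, v, k2, k3⟩ := k
    exact Or.inl ⟨y, ⟨v, k2, k3⟩, k1.symm⟩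

end TauVA

open TauVA in
theorem tauV (_hF : FactS) (_co : CoefS) (ps : PsizeS) : TauVS := by
  intro B _ hB Y hY s t u a b c
  have := Fintype.ofFinite Y.Om
  have q1 : ∀ v : S, {x | Y.Full x {v}}.ncard = 2 * finrank F2 (P Y {v}) := fun v => by
    rw [ps B hB Y hY _ (by simp [Clq]), rank_P]
    simp
  have q2 : ∀ v w : S, adj v w → {x | Y.Full x {v, w}}.ncard = 4 * finrank F2 (P Y {v, w}) :=
    fun v w h => by
      rw [ps B hB Y hY _ (by simp [Clq, h, adj_symm h]), rank_P, Finset.card_pair (adj_ne h)]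
      simp
  have q3 : {x | Y.Full x {s, t, u}}.ncard = 8 * finrank F2 (P Y {s, t, u}) := by
    rw [ps B hB Y hY _ (by simp [Clq, a, b, c, adj_symm a, adj_symm b, adj_symm c]), rank_P,
      Finset.card_eq_three.2 ⟨s, t, u, adj_ne a, adj_ne c, adj_ne b, rfl⟩]
    simp
  have v := vol_le hY {s, t, u} (P Y {s} ⊔ P Y {t} ⊔ P Y {u}) fun v hv => by
    simp only [Finset.mem_insert, Finset.mem_singleton] at hv
    rcases hv with rfl | rfl | rfl
    exacts [le_sup_of_le_left le_sup_left, le_sup_of_le_left le_sup_right, le_sup_right]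
  have o := orb_le (Y := Y) {s, t, u}
  rw [← rank_P] at o
  have r1 := Submodule.finrank_sup_add_finrank_inf_eq (P Y {s} ⊔ P Y {t}) (P Y {u})
  have r2 := Submodule.finrank_sup_add_finrank_inf_eq (P Y {s}) (P Y {t})
  have r3 := Submodule.finrank_sup_add_finrank_inf_eq (P Y {s, u}) (P Y {t, u})
  have r4 := Submodule.finrank_mono (show P Y {s, t} ≤ P Y {s} ⊓ P Y {t} from
    le_inf (P_anti (by simp)) (P_anti (by simp)))
  have r5 := Submodule.finrank_mono (show P Y {s, u} ⊔ P Y {t, u} ≤ (P Y {s} ⊔ P Y {t}) ⊓ P Y {u}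
    from le_inf (sup_le_sup (P_anti (by simp)) (P_anti (by simp)))
      (sup_le (P_anti (by simp)) (P_anti (by simp))))
  have r6 := Submodule.finrank_mono (show P Y {s, u} ⊓ P Y {t, u} ≤ P Y {s, t, u} from
    fun φ h v hv => by
      simp only [Finset.mem_insert, Finset.mem_singleton] at hv
      rcases hv with rfl | rfl | rfl
      exacts [h.1 _ (by simp), h.2 _ (by simp), h.1 _ (by simp)])
  rw [q1, q1, q1, q2 s t a, q2 t u b, q2 s u c, q3]
  omega

end Pool.Agent.MP_df844f_gt.RA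

end
end MrgPart8

-- ======== part 9: formerly Pool.Agent.MP_df844f_gt.RA.s5.Tree
section MrgPart9

/-! Cutting a spanning forest of the dual graph into connected pieces of controlled size. -/

set_option linter.unusedSectionVars false

noncomputable section

namespace Pool.Agent.MP_df844f_gt.RA

variable [Dat]

namespace TreeA

open Relation

/-- A rooted forest with at most `nS` children per node is cut into pieces. -/
theorem cutF {F : Type} [Finite F] (rt : F → Prop) (par : F → F) (d : F → ℕ)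
    (hd : ∀ σ, ¬ rt σ → d (par σ) < d σ)
    (hch : ∀ w, {c | ¬ rt c ∧ par c = w}.ncard ≤ nS) (m : ℕ) (n : ℕ) :
    ∀ A : Set F, A.ncard = n → (∀ σ ∈ A, ¬ rt σ → par σ ∈ A) →
    ∃ top : F → F, (∀ t, {σ | σ ∈ A ∧ top σ = t}.ncard ≤ nS * m + 1) ∧
      (∀ σ ∈ A, top σ = σ ∨ (¬ rt σ ∧ top (par σ) = top σ)) ∧
      m * {σ | σ ∈ A ∧ top σ = σ ∧ ¬ rt σ}.ncard ≤ A.ncard ∧ ∀ σ ∈ A, top σ ∈ A := by
  classical
  induction n using Nat.strong_induction_on with
  | _ n ih =>
  intro A hA hup
  rcases A.eq_empty_or_nonempty with rfl | hne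
  · exact ⟨id, by simp, by simp, by simp, by simp⟩
  let st : F → F → Prop := fun a b => ¬ rt a ∧ par a = b
  let sub : F → Set F := fun w => {σ | σ ∈ A ∧ ReflTransGen st σ w}
  have hupT : ∀ σ w, ReflTransGen st σ w → σ ∈ A → w ∈ A := by
    intro σ w h hσ
    induction h with
    | refl => exact hσ
    | tail _ k ih2 => exact k.2 ▸ hup _ ih2 k.1
  let Bg : Set F := {w | w ∈ A ∧ (rt w ∨ m ≤ (sub w).ncard)}
  have hBg : Bg.Nonempty := by
    obtain ⟨w, hw, hmin⟩ := Set.exists_min_image A d A.toFinite hne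
    refine ⟨w, hw, Or.inl ?_⟩
    by_contra k
    exact absurd (hmin _ (hup w hw k)) (not_le.2 (hd w k))
  obtain ⟨w, hw, hmax⟩ := Set.exists_max_image Bg d Bg.toFinite hBg
  have hwsub : w ∈ sub w := ⟨hw.1, ReflTransGen.refl⟩
  have hsz : (sub w).ncard ≤ nS * m + 1 := by
    let C : Finset F := (Set.toFinite {c | c ∈ A ∧ ¬ rt c ∧ par c = w}).toFinset
    have hC : C.card ≤ nS := by
      rw [← Set.ncard_eq_toFinset_card]
      exact (Set.ncard_le_ncard (fun c hc => hc.2) (Set.toFinite _)).trans (hch w)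
    have h1 : (sub w).toFinite.toFinset ⊆
        insert w (C.biUnion fun c => (sub c).toFinite.toFinset) := by
      intro σ hσ
      have hσ : σ ∈ sub w := by simpa using hσ
      rcases hσ.2.cases_tail with e | ⟨c, k1, k2⟩
      · rw [e]; exact Finset.mem_insert_self _ _
      · refine Finset.mem_insert_of_mem (Finset.mem_biUnion.2 ⟨c, ?_, ?_⟩)
        · exact (Set.Finite.mem_toFinset _).2 ⟨hupT _ _ k1 hσ.1, k2.1, k2.2⟩
        · exact (Set.Finite.mem_toFinset _).2 ⟨hσ.1, k1⟩
    have h2 : ∀ c ∈ C, ((sub c).toFinite.toFinset).card ≤ m := by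
      intro c hc
      have hc : c ∈ A ∧ ¬ rt c ∧ par c = w :=
        (Set.Finite.mem_toFinset (Set.toFinite {c | c ∈ A ∧ ¬ rt c ∧ par c = w})).1 hc
      rw [← Set.ncard_eq_toFinset_card]
      by_contra k
      have := hmax c ⟨hc.1, Or.inr (by omega)⟩
      have h3 := hd c hc.2.1
      rw [hc.2.2] at h3
      omega
    have h3 := Finset.card_biUnion_le_card_mul C _ m h2
    have h4 := (Finset.card_le_card h1).trans (Finset.card_insert_le _ _)
    rw [Set.ncard_eq_toFinset_card _ (sub w).toFinite]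
    have h5 := Nat.mul_le_mul_right m hC
    omega
  have hsubA : sub w ⊆ A := fun σ h => h.1
  have hcard : (A \ sub w).ncard + (sub w).ncard = A.ncard :=
    Set.ncard_sdiff_add_ncard_of_subset hsubA A.toFinite
  have hpos : 0 < (sub w).ncard := (Set.ncard_pos (Set.toFinite _)).2 ⟨w, hwsub⟩
  have hpar : ∀ σ ∈ A, ¬ rt σ → par σ ∈ sub w → σ ∈ sub w := fun σ hσ k h =>
    ⟨hσ, ReflTransGen.head ⟨k, rfl⟩ h.2⟩
  obtain ⟨top, t1, t2, t3, t4⟩ := ih (A \ sub w).ncard (by omega) (A \ sub w) rfl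
    (fun σ hσ k => ⟨hup σ hσ.1 k, fun h => hσ.2 (hpar σ hσ.1 k h)⟩)
  refine ⟨fun σ => if σ ∈ sub w then w else top σ, fun t => ?_, fun σ hσ => ?_, ?_,
    fun σ hσ => ?_⟩
  · by_cases ht : t = w
    · refine (Set.ncard_le_ncard (fun σ hσ => ?_) (Set.toFinite _)).trans hsz
      by_contra k
      have h2 : (if σ ∈ sub w then w else top σ) = t := hσ.2
      rw [if_neg k, ht] at h2
      exact (t4 σ ⟨hσ.1, k⟩).2 (h2 ▸ hwsub)
    · refine (Set.ncard_le_ncard (fun σ hσ => ?_) (Set.toFinite _)).trans (t1 t)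
      have h2 : (if σ ∈ sub w then w else top σ) = t := hσ.2
      by_cases k : σ ∈ sub w
      · rw [if_pos k] at h2; exact absurd h2.symm ht
      · rw [if_neg k] at h2; exact ⟨⟨hσ.1, k⟩, h2⟩
  · by_cases k : σ ∈ sub w
    · rcases k.2.cases_head with e | ⟨b, k1, k2⟩
      · left; simp only [if_pos k]; exact e.symm
      · right
        have : par σ ∈ sub w := ⟨hup σ hσ k1.1, k1.2 ▸ k2⟩
        exact ⟨k1.1, by simp only [if_pos k, if_pos this]⟩
    · rcases t2 σ ⟨hσ, k⟩ with e | ⟨e1, e2⟩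
      · left; simp only [if_neg k]; exact e
      · right
        have : par σ ∉ sub w := fun h => k (hpar σ hσ e1 h)
        exact ⟨e1, by simp only [if_neg k, if_neg this]; exact e2⟩
  · have hsub : ∀ σ, σ ∈ {σ | σ ∈ A ∧ (if σ ∈ sub w then w else top σ) = σ ∧ ¬ rt σ} →
        (σ = w ∧ ¬ rt w) ∨ σ ∈ {σ | σ ∈ A \ sub w ∧ top σ = σ ∧ ¬ rt σ} := by
      intro σ hσ
      have h2 : (if σ ∈ sub w then w else top σ) = σ := hσ.2.1
      by_cases k : σ ∈ sub w
      · rw [if_pos k] at h2; exact Or.inl ⟨h2.symm, h2 ▸ hσ.2.2⟩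
      · rw [if_neg k] at h2; exact Or.inr ⟨⟨hσ.1, k⟩, h2, hσ.2.2⟩
    beta_reduce
    rcases hw.2 with hr | hm
    · have := Set.ncard_le_ncard (s := {σ | σ ∈ A ∧ (if σ ∈ sub w then w else top σ) = σ ∧ ¬ rt σ})
        (t := {σ | σ ∈ A \ sub w ∧ top σ = σ ∧ ¬ rt σ})
        (fun σ hσ => (hsub σ hσ).resolve_left fun h => h.2 hr) (Set.toFinite _)
      have := Nat.mul_le_mul_left m this
      omega
    · have := Set.ncard_le_ncard (s := {σ | σ ∈ A ∧ (if σ ∈ sub w then w else top σ) = σ ∧ ¬ rt σ})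
        (t := insert w {σ | σ ∈ A \ sub w ∧ top σ = σ ∧ ¬ rt σ})
        (fun σ hσ => (hsub σ hσ).imp_left fun h => h.1) (Set.toFinite _)
      have := Nat.mul_le_mul_left m (this.trans (Set.ncard_insert_le _ _))
      rw [Nat.mul_add] at this
      omega
  · by_cases k : σ ∈ sub w
    · simp only [if_pos k]; exact hw.1
    · simp only [if_neg k]; exact (t4 σ ⟨hσ, k⟩).1

theorem da_symm (X : Surf) (G : Set X.Ed) {a b : X.F} (h : X.DA G a b) : X.DA G b a := by
  obtain ⟨ε, h1, h2⟩ := h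
  exact ⟨ε, h1, h2.symm⟩

theorem reach_root (X : Surf) (G : Set X.Ed) (σ : X.F) :
    ∃ n, Rn (X.DA G) n σ (Quot.out (Quot.mk (X.DA G) σ)) := by
  have h : EqvGen (X.DA G) σ (Quot.out (Quot.mk (X.DA G) σ)) :=
    Quot.eqvGen_exact (Quot.out_eq _).symm
  generalize Quot.out (Quot.mk (X.DA G) σ) = y at h
  induction h with
  | rel a b k => exact ⟨1, Rn.single k⟩
  | refl a => exact ⟨0, Rn.refl _ _⟩
  | symm a b _ k => obtain ⟨n, k⟩ := k; exact ⟨n, k.symm fun _ _ => da_symm X G⟩
  | trans a b c _ _ k1 k2 =>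
    obtain ⟨n, k1⟩ := k1
    obtain ⟨n', k2⟩ := k2
    exact ⟨_, k1.trans k2⟩

/-- A breadth first spanning forest of the dual graph along `G`. -/
theorem bfs (X : Surf) (G : Set X.Ed) : ∃ (d : X.F → ℕ), ∀ σ,
    σ ≠ Quot.out (Quot.mk (X.DA G) σ) → ∃ y ε, ε ∈ G ∧
      ((X.l ε = σ ∧ X.r ε = y) ∨ (X.l ε = y ∧ X.r ε = σ)) ∧ d y < d σ := by
  classical
  refine ⟨fun σ => Nat.find (reach_root X G σ), fun σ hσ => ?_⟩
  have h := Nat.find_spec (reach_root X G σ)
  beta_reduce
  generalize Nat.find (reach_root X G σ) = n at h ⊢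
  generalize e : Quot.out (Quot.mk (X.DA G) σ) = z at h hσ
  cases h with
  | refl => exact absurd rfl hσ
  | @step n _ y _ a b =>
    have e2 : Quot.mk (X.DA G) σ = Quot.mk (X.DA G) y := Quot.sound a
    obtain ⟨ε, h1, h2⟩ := a
    refine ⟨y, ε, h1, h2, Nat.lt_succ_of_le (Nat.find_min' _ ?_)⟩
    rw [← e2, e]
    exact b

end TreeA

open TreeA Relation in
theorem tree : TreeS := by
  classical
  intro X hX G m hm
  obtain ⟨d, hd⟩ := bfs X G
  let rt : X.F → Prop := fun σ => σ = Quot.out (Quot.mk (X.DA G) σ)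
  have hd2 : ∀ σ, ∃ y, ¬ rt σ → ∃ ε, ε ∈ G ∧
      ((X.l ε = σ ∧ X.r ε = y) ∨ (X.l ε = y ∧ X.r ε = σ)) ∧ d y < d σ := by
    intro σ
    by_cases k : rt σ
    · exact ⟨σ, fun h => absurd k h⟩
    · obtain ⟨y, h⟩ := hd σ k
      exact ⟨y, fun _ => h⟩
  choose par hpar using hd2
  have hd3 : ∀ σ, ∃ ε, ¬ rt σ → ε ∈ G ∧
      ((X.l ε = σ ∧ X.r ε = par σ) ∨ (X.l ε = par σ ∧ X.r ε = σ)) ∧ d (par σ) < d σ := by
    intro σ
    by_cases k : rt σ
    · obtain ⟨ε, _⟩ := hX.covF σ
      exact ⟨ε, fun h => absurd k h⟩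
    · obtain ⟨ε, h⟩ := hpar σ k
      exact ⟨ε, fun _ => h⟩
  choose pe hpe using hd3
  have hinj : ∀ a b, ¬ rt a → ¬ rt b → pe a = pe b → a = b := by
    intro a b ha hb e
    obtain ⟨_, a1, a2⟩ := hpe a ha
    obtain ⟨_, b1, b2⟩ := hpe b hb
    rw [e] at a1
    rcases a1 with ⟨a1, a3⟩ | ⟨a1, a3⟩ <;> rcases b1 with ⟨b1, b3⟩ | ⟨b1, b3⟩
    · exact a1.symm.trans b1
    · have e1 : a = par b := a1.symm.trans b1
      have e2 : par a = b := a3.symm.trans b3
      rw [e2] at a2; rw [← e1] at b2; omega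
    · have e1 : par a = b := a1.symm.trans b1
      have e2 : a = par b := a3.symm.trans b3
      rw [e1] at a2; rw [← e2] at b2; omega
    · exact a3.symm.trans b3
  have hch : ∀ w, {c | ¬ rt c ∧ par c = w}.ncard ≤ nS := by
    intro w
    refine le_trans (Set.ncard_le_ncard_of_injOn pe (fun c hc => ?_)
      (fun a ha b hb e => hinj a b ha.1 hb.1 e) (Set.toFinite _)) (hX.deg w)
    rcases (hpe c hc.1).2.1 with h | h
    · exact Or.inr (h.2.trans hc.2)
    · exact Or.inl (h.1.trans hc.2)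
  obtain ⟨top, t1, t2, t3, -⟩ := cutF rt par d (fun σ k => (hpe σ k).2.2) hch m _ Set.univ rfl
    (fun _ _ _ => Set.mem_univ _)
  simp only [Set.mem_univ, true_and, forall_const, Set.ncard_univ] at t1 t2 t3
  refine ⟨top, t1, fun σ => ?_, ?_⟩
  · induction hn : d σ using Nat.strong_induction_on generalizing σ with
    | _ n ih =>
    rcases t2 σ with e | ⟨e1, e2⟩
    · rw [e]
    · obtain ⟨h1, h2, h3⟩ := hpe σ e1
      have := ih (d (par σ)) (hn ▸ h3) (par σ) rfl
      rw [e2] at this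
      exact ReflTransGen.head ⟨rfl, e2, pe σ, h1, h2⟩ this
  · have c1 : {σ | top σ ≠ σ}.ncard ≤ {ε | ε ∈ G ∧ top (X.l ε) = top (X.r ε)}.ncard := by
      refine Set.ncard_le_ncard_of_injOn pe (fun σ hσ => ?_) (fun a ha b hb e => ?_)
        (Set.toFinite _)
      · obtain ⟨e1, e2⟩ := (t2 σ).resolve_left hσ
        obtain ⟨h1, h2, _⟩ := hpe σ e1
        refine ⟨h1, ?_⟩
        rcases h2 with h | h <;> rw [h.1, h.2, e2]
      · exact hinj a b ((t2 a).resolve_left ha).1 ((t2 b).resolve_left hb).1 e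
    have c2 : {σ | rt σ}.ncard ≤ X.ncomp G := by
      rw [Surf.ncomp, ← Set.ncard_univ]
      refine Set.ncard_le_ncard_of_injOn (Quot.mk (X.DA G)) (fun _ _ => Set.mem_univ _)
        (fun a ha b hb e => ?_) (Set.toFinite _)
      have ha : a = Quot.out (Quot.mk (X.DA G) a) := ha
      have hb : b = Quot.out (Quot.mk (X.DA G) b) := hb
      rw [ha, hb, e]
    have c3 : {σ | top σ = σ ∧ ¬ rt σ}.ncard ≤ Nat.card X.F / m := by
      rw [Nat.le_div_iff_mul_le hm, Nat.mul_comm]
      exact t3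
    have c4 : Nat.card X.F ≤
        {σ | top σ ≠ σ}.ncard + {σ | rt σ}.ncard + {σ | top σ = σ ∧ ¬ rt σ}.ncard := by
      rw [← Set.ncard_univ]
      refine le_trans (Set.ncard_le_ncard (t := {σ | top σ ≠ σ} ∪ {σ | rt σ} ∪
        {σ | top σ = σ ∧ ¬ rt σ}) (fun σ _ => ?_) (Set.toFinite _))
        ((Set.ncard_union_le _ _).trans (Nat.add_le_add_right (Set.ncard_union_le _ _) _))
      by_cases k1 : top σ = σ
      · by_cases k2 : rt σ
        · exact Or.inl (Or.inr k2)
        · exact Or.inr ⟨k1, k2⟩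
      · exact Or.inl (Or.inl k1)
    have c5 : {ε | ε ∈ G ∧ top (X.l ε) ≠ top (X.r ε)}.ncard +
        {ε | ε ∈ G ∧ top (X.l ε) = top (X.r ε)}.ncard = G.ncard := by
      rw [← Set.ncard_union_eq (Set.disjoint_left.2 fun ε h k => h.2 k.2)]
      congr 1
      ext ε
      simp only [Set.mem_union, Set.mem_ofPred_eq]
      tauto
    omega

end Pool.Agent.MP_df844f_gt.RA

end
end MrgPart9

-- ======== part 10: formerly Pool.Agent.MP_df844f_gt.RA.s5.ZLow
section MrgPart10

/-! Upper bounds for the cocycles of degree one and for the number of arcs. -/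

set_option linter.unusedSectionVars false

noncomputable section

namespace Pool.Agent.MP_df844f_gt.RA

variable [Dat]

open PS

namespace ZLowA

theorem card_le {V : Type} [AddCommGroup V] {r : ℕ} (f : V → Fin r → F2)
    (hf : ∀ a b, f (a + b) = f a + f b) {X : Type} [Finite X] (R : V → (X → F2) → Prop)
    (hex : ∀ v, f v = 0 → ∃ φ, R v φ) (hinj : ∀ v v' φ, R v φ → R v' φ → v = v') :
    Nat.card V ≤ 2 ^ (r + Nat.card X) := by
  have h0 : ∀ v, f (v + Function.invFun f (f v)) = 0 := by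
    intro v
    rw [hf, Function.invFun_eq (f := f) ⟨v, rfl⟩]
    funext i
    exact F2_add_self _
  choose φ hφ using fun v => hex _ (h0 v)
  have inj : Function.Injective fun v => (f v, φ v) := by
    intro v v' h
    have h1 : f v = f v' := congrArg Prod.fst h
    have h2 : φ v = φ v' := congrArg Prod.snd h
    have h3 := hinj _ _ _ (hφ v) (h2 ▸ hφ v')
    rw [h1] at h3
    exact add_right_cancel h3
  refine (Nat.card_le_card_of_injective _ inj).trans ?_
  rw [Nat.card_prod, Nat.card_fun, Nat.card_fun, Nat.card_zmod, Nat.card_fin, pow_add]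

variable {B : Type} [MulAction W B]

theorem ev_add {Y : PS B} {E : Type} [MulAction W E] (c c' : Y.Coch E) (ch : Y.Path) (ε : E) :
    ev (c + c') ch ε = ev c ch ε + ev c' ch ε := by
  induction ch with
  | nil => rfl
  | cons l ch ih =>
    rw [ev_cons, ev_cons, ev_cons, ih, Pi.add_apply, Pi.add_apply]
    ring

/-- The arcs: darts up to reversal. -/
theorem exists_arcs (Y : PS B) : ∃ (Q : Type) (_ : Finite Q) (pr : Y.A → Q),
    Function.Surjective pr ∧ (∀ a, pr (Y.rev a) = pr a) ∧ Nat.card Y.A ≤ 2 * Nat.card Q := by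
  let σ : Setoid Y.A := ⟨fun a b => b = a ∨ b = Y.rev a, fun _ => Or.inl rfl, by
    rintro a b (rfl | rfl)
    · exact Or.inl rfl
    · exact Or.inr (Y.rev_rev a).symm, by
    rintro a b c (rfl | rfl) (rfl | rfl)
    · exact Or.inl rfl
    · exact Or.inr rfl
    · exact Or.inr rfl
    · exact Or.inl (Y.rev_rev a)⟩
  refine ⟨Quotient σ, inferInstance, Quotient.mk σ, Quotient.mk_surjective,
    fun a => (Quotient.sound (Or.inr rfl)).symm, ?_⟩
  have hs : Function.Surjective fun p : Bool × Quotient σ =>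
      if p.1 then p.2.out else Y.rev p.2.out := by
    intro a
    rcases Quotient.exact (Quotient.out_eq (Quotient.mk σ a)) with h | h
    · exact ⟨(true, Quotient.mk σ a), h.symm⟩
    · exact ⟨(false, Quotient.mk σ a), h.symm⟩
  have := Nat.card_le_card_of_surjective _ hs
  rwa [Nat.card_prod, Nat.card_eq_fintype_card (α := Bool), Fintype.card_bool] at this

/-- The cochain with values `u` on thick edges and `v` on arcs. -/
def th {Y : PS B} {Q : Type} (pr : Y.A → Q) (u : Y.Chain) (v : Q → F2) : Y.Coch Unit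
  | .edge s x _ => fun _ => u (Y.cell x {s})
  | .dart a => fun _ => v (pr a)

theorem th_add {Y : PS B} {Q : Type} (pr : Y.A → Q) (u u' : Y.Chain) (v v' : Q → F2) :
    th pr (u + u') (v + v') = th pr u v + th pr u' v' := by
  funext l
  cases l <;> rfl

theorem full_sq {Y : PS B} (hY : Y.State) {s t : S} {x0 x1 x2 x3 : Y.Om} (h : adj s t)
    (e0 : Y.e s x0 x1) (e1 : Y.e t x1 x2) (e2 : Y.e s x2 x3) (e3 : Y.e t x3 x0) :
    Y.Full x0 {s, t} := by
  intro y hy v hv
  have k := hY.orb2 h hy.symm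
  rw [hY.sg_eq e0, hY.sg_eq e1, hY.sg_eq (Y.e_symm e3), hY.sg_eq (Y.e_symm e2)] at k
  rw [Finset.mem_insert, Finset.mem_singleton] at hv
  rcases k with rfl | rfl | rfl | rfl | rfl <;> rcases hv with rfl | rfl
  · exact fun k => k ⟨_, e0⟩
  · exact fun k => k ⟨_, Y.e_symm e3⟩
  · exact fun k => k ⟨_, Y.e_symm e0⟩
  · exact fun k => k ⟨_, e1⟩
  · exact fun k => k ⟨_, Y.e_symm e2⟩
  · exact fun k => k ⟨_, e3⟩
  · exact fun k => k ⟨_, e2⟩
  · exact fun k => k ⟨_, Y.e_symm e1⟩
  · exact fun k => k ⟨_, e2⟩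
  · exact fun k => k ⟨_, Y.e_symm e1⟩

theorem th_cocyc (co : CoefS) (hB : Loc B) {Y : PS B} (hY : Y.State) {Q : Type} {pr : Y.A → Q}
    (hp : ∀ a, pr (Y.rev a) = pr a) {u : Y.Chain} (hu : Y.dl 2 u = 0) (v : Q → F2) :
    Cocyc (th pr u v) where
  symm s x y _ h := congrArg u (cell_e (Finset.mem_singleton_self s) (Y.e_symm h))
  dsym a _ := congrArg v (hp a)
  sq s t x0 x1 x2 x3 _ h e0 e1 e2 e3 := by
    have hne := adj_ne h
    have hf := full_sq hY h e0 e1 e2 e3
    have hc : Clq {s, t} := by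
      intro a ha b hb hab
      rw [Finset.mem_insert, Finset.mem_singleton] at ha hb
      rcases ha with rfl | rfl <;> rcases hb with rfl | rfl
      · exact (hab rfl).elim
      · exact h
      · exact adj_symm h
      · exact (hab rfl).elim
    have hm : Y.cell x0 {s, t} ∈ Y.FC 2 := ⟨x0, {s, t}, Finset.card_pair hne, hc, hf, rfl⟩
    have h0 : Y.bd u (Y.cell x0 {s, t}) = 0 := by
      have := DFunLike.congr_fun hu (Y.cell x0 {s, t})
      classical
      have h2 : (Finsupp.filter (· ∈ Y.FC 2) (Y.bd u)) (Y.cell x0 {s, t}) = 0 := by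
        rw [← Finsupp.restrictDom_apply (R := F2)]; exact this
      rwa [Finsupp.filter_apply_pos _ _ hm] at h2
    have e4 : ({s, t} : Finset S).erase s = {t} := Finset.erase_insert (by simpa using hne)
    have e5 : ({s, t} : Finset S).erase t = {s} := by
      rw [Finset.pair_comm]; exact Finset.erase_insert (by simpa using hne.symm)
    rw [co B hB Y hY u x0 _ hc hf, Finset.sum_pair hne, e4, e5, hY.sg_eq e0,
      hY.sg_eq (Y.e_symm e3), ← cell_e (Finset.mem_singleton_self t) e3,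
      ← cell_e (Finset.mem_singleton_self s) e2] at h0
    show u (Y.cell x0 {s}) + u (Y.cell x1 {t}) + u (Y.cell x2 {s}) + u (Y.cell x3 {t}) = 0
    rw [← h0]; ring

end ZLowA

open ZLowA

theorem zlow (co : CoefS) : ZLowS := by
  intro B _ o hB Y x0 r μ hY hI
  obtain ⟨Λ, hΛ, -⟩ := hI
  obtain ⟨lam, -, hl⟩ := hΛ.b1
  obtain ⟨Q, _, pr, p1, p2, p3⟩ := exists_arcs Y
  have h := card_le
    (V := (Y.Ck 1 ⊓ LinearMap.ker (Y.dl (1 + 1)) : Submodule F2 Y.Chain) × (Q → F2))
    (fun v i => ev (th pr v.1.1 v.2) (lam i) ()) (fun a b => funext fun i => by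
      show ev (th pr (a.1.1 + b.1.1) (a.2 + b.2)) (lam i) () = _
      rw [th_add, ev_add]; rfl)
    (fun v (φ : Y.Om → F2) => IsD (th pr v.1.1 v.2) fun x _ => φ x)
    (fun v hv => by
      obtain ⟨φ, hφ⟩ := hl _ (th_cocyc co hB hY p2 v.1.2.2 v.2) (congrFun hv)
      exact ⟨fun x => φ x (), hφ⟩)
    (fun v v' φ h h' => by
      refine Prod.ext (Subtype.ext (Finsupp.ext fun c => ?_)) (funext fun q => ?_)
      · by_cases k : c ∈ Y.FC 1
        · obtain ⟨x, J, hJ, -, hf, rfl⟩ := k
          obtain ⟨s, rfl⟩ := Finset.card_eq_one.1 hJ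
          have e := e_sg (hY.full_one.1 hf)
          exact (h.ed s _ _ () e).trans (h'.ed s _ _ () e).symm
        · rw [(Finsupp.mem_supported' F2 _).1 v.1.2.1 c k,
            (Finsupp.mem_supported' F2 _).1 v'.1.2.1 c k]
      · obtain ⟨a, rfl⟩ := p1 q
        exact (h.da a ()).trans (h'.da a ()).symm)
  rw [Nat.card_prod, Nat.card_fun, Module.natCard_eq_pow_finrank (K := F2), Nat.card_zmod,
    ← pow_add, Nat.pow_le_pow_iff_right (by omega)] at h
  unfold zz vol
  omega

theorem arcS : ArcS := by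
  intro B _ o Y x0 r μ hI
  obtain ⟨Λ, hΛ, -⟩ := hI
  obtain ⟨lam, -, hl⟩ := hΛ.b1
  obtain ⟨Q, _, pr, p1, p2, p3⟩ := exists_arcs Y
  have h := card_le (V := Q → F2) (X := {c | ∃ x, c = Y.cell x Finset.univ})
    (fun v i => ev (th pr 0 v) (lam i) ()) (fun a b => funext fun i => by
      show ev (th pr 0 (a + b)) (lam i) () = _
      rw [← add_zero (0 : Y.Chain), th_add, ev_add, add_zero]; rfl)
    (fun v ψ => ∀ a, v (pr a) = ψ ⟨_, Y.src a, rfl⟩ + ψ ⟨_, Y.src (Y.rev a), rfl⟩)
    (fun v hv => by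
      obtain ⟨φ, hφ⟩ := hl (th pr 0 v)
        ⟨fun _ _ _ _ _ => rfl, fun a _ => congrArg v (p2 a), fun _ _ _ _ _ _ _ _ _ _ _ _ => rfl⟩
        (congrFun hv)
      have hc : ∀ x y, Y.cell x Finset.univ = Y.cell y Finset.univ → φ x () = φ y () := by
        intro x y h
        have := (cell_eq_iff.1 h).2
        clear h
        induction this with
        | refl => rfl
        | tail _ k ih =>
          obtain ⟨s, -, e⟩ := k
          have h0 : (0 : F2) = φ _ () + φ _ () := hφ.ed s _ _ () e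
          rw [ih, eq_neg_of_add_eq_zero_left h0.symm, CharTwo.neg_eq]
      refine ⟨fun c => φ c.2.choose (), fun a => ?_⟩
      have k : ∀ x, φ (⟨_, x, rfl⟩ : {c | ∃ x, c = Y.cell x Finset.univ}).2.choose () = φ x () :=
        fun x => (hc _ _ (⟨_, x, rfl⟩ : {c | ∃ x, c = Y.cell x Finset.univ}).2.choose_spec).symm
      exact (hφ.da a ()).trans (congrArg₂ _ (k _).symm (k _).symm))
    (fun v v' ψ h h' => funext fun q => by
      obtain ⟨a, rfl⟩ := p1 q
      exact (h a).trans (h' a).symm)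
  rw [Nat.card_fun, Nat.card_zmod, Nat.pow_le_pow_iff_right (by omega), Nat.card_coe_set_eq] at h
  unfold nK
  omega

end Pool.Agent.MP_df844f_gt.RA

end
end MrgPart10

-- marker of a merged file
example : 731051 + 621145 = 731051 + 621145 := rfl
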